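import Pool.Agent.H100R2.MH.Stubs

set_option autoImplicit false

universe u

namespace Pool.Agent.H100R2.MH

open Topology Filter Set

theorem t01 : T01.{u} := by
  intro D _ _ _
  have hb : ∀ p ∈ St D, ∀ f : C(D, ℝ), |p f| ≤ ‖f‖ := by
    rintro p ⟨h1, h2, h3, h4⟩ f
    have hf : ∀ x, |f x| ≤ ‖f‖ := fun x => by
      rw [← Real.norm_eq_abs]; exact ContinuousMap.norm_coe_le_norm f x
    have k1 : 0 ≤ p (‖f‖ • (1 : C(D, ℝ)) + (-1 : ℝ) • f) := by
      apply h4
      intro x
      have := (abs_le.1 (hf x)).2
      simp only [ContinuousMap.add_apply, ContinuousMap.smul_apply, ContinuousMap.one_apply,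
        smul_eq_mul]
      linarith
    have k2 : 0 ≤ p (‖f‖ • (1 : C(D, ℝ)) + f) := by
      apply h4
      intro x
      have := (abs_le.1 (hf x)).1
      simp only [ContinuousMap.add_apply, ContinuousMap.smul_apply, ContinuousMap.one_apply,
        smul_eq_mul]
      linarith
    rw [h1, h2, h2, h3] at k1
    rw [h1, h2, h3] at k2
    rw [abs_le]
    constructor <;> linarith
  refine ⟨?_, ?_, hb, ?_⟩
  · have hc : IsClosed (St D) := by
      have e : St D = ((⋂ f : C(D, ℝ), ⋂ g : C(D, ℝ), {p : XX D | p (f + g) = p f + p g}) ∩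
          (⋂ c : ℝ, ⋂ f : C(D, ℝ), {p : XX D | p (c • f) = c * p f})) ∩
          ({p : XX D | p 1 = 1} ∩
          ⋂ f : C(D, ℝ), ⋂ _ : ∀ x, 0 ≤ f x, {p : XX D | 0 ≤ p f}) := by
        ext p
        simp only [St, mem_inter_iff, mem_iInter, mem_ofPred_eq]
        constructor
        · rintro ⟨h1, h2, h3, h4⟩
          exact ⟨⟨h1, h2⟩, h3, h4⟩
        · rintro ⟨⟨h1, h2⟩, h3, h4⟩
          exact ⟨h1, h2, h3, h4⟩
      rw [e]
      refine IsClosed.inter (IsClosed.inter ?_ ?_) (IsClosed.inter ?_ ?_)
      · exact isClosed_iInter fun f => isClosed_iInter fun g =>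
          isClosed_eq (continuous_apply (f + g))
            (show Continuous fun p : XX D => p f + p g from
              Continuous.add (continuous_apply f) (continuous_apply g))
      · exact isClosed_iInter fun c => isClosed_iInter fun f =>
          isClosed_eq (continuous_apply _) (continuous_const.mul (continuous_apply _))
      · exact isClosed_eq (continuous_apply _) continuous_const
      · exact isClosed_iInter fun f => isClosed_iInter fun _ =>
          isClosed_le continuous_const (continuous_apply _)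
    exact (isCompact_univ_pi (fun f : C(D, ℝ) => isCompact_Icc (a := -‖f‖) (b := ‖f‖))).of_isClosed_subset
      hc (fun p hp f _ => abs_le.1 (hb p hp f))
  · rintro p ⟨h1, h2, h3, h4⟩ q ⟨g1, g2, g3, g4⟩ a b ha hb hab
    have e : ∀ f, (a • p + b • q : XX D) f = a * p f + b * q f := fun f => rfl
    refine ⟨fun f g => ?_, fun c f => ?_, ?_, fun f hf => ?_⟩
    · rw [e, e, e, h1, g1]; ring
    · rw [e, e, h2, g2]; ring
    · rw [e, h3, g3]; linarith
    · rw [e]
      exact add_nonneg (mul_nonneg ha (h4 f hf)) (mul_nonneg hb (g4 f hf))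
  · intro x
    exact ⟨fun f g => rfl, fun c f => rfl, rfl, fun f hf => hf x⟩

end Pool.Agent.H100R2.MH
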