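import Pool.Agent.H100R2.MH.Stubs

set_option autoImplicit false

universe u

namespace Pool.Agent.H100R2.MH

open Topology Filter Set

theorem t03 (h01 : T01.{u}) (h04 : T04.{u}) : T03.{u} := by
  intro D _ _ _ K
  obtain ⟨hc, hconv, -, hd⟩ := h01 D
  obtain ⟨hp, -⟩ := h04 D K
  have hne : (St D).Nonempty := by
    obtain ⟨x, -⟩ := K.tsurj 0
    exact ⟨_, hd x⟩
  have hcl : IsClosed (St D) := hc.isClosed
  have h0 : K.Inv (St D) := ⟨Subset.rfl, hcl, hconv, hne, fun x q hq => hp _ q hq⟩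
  obtain ⟨Q, -, hQ⟩ : ∃ Q, Q ⊆ St D ∧ Minimal (· ∈ {Q : Set (XX D) | K.Inv Q}) Q := by
    refine zorn_superset_nonempty {Q : Set (XX D) | K.Inv Q} ?_ (St D) h0
    intro c hcS hchain hcne
    have hIc : ∀ s ∈ c, K.Inv s := fun s hs => hcS hs
    obtain ⟨s0, hs0⟩ := hcne
    have : Nonempty c := ⟨⟨s0, hs0⟩⟩
    refine ⟨⋂₀ c, ⟨?_, ?_, ?_, ?_, ?_⟩, fun s hs => sInter_subset_of_mem hs⟩
    · exact (sInter_subset_of_mem hs0).trans (hIc s0 hs0).sub
    · exact isClosed_sInter fun s hs => (hIc s hs).closed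
    · exact convex_sInter fun s hs => (hIc s hs).convex
    · exact IsCompact.nonempty_sInter_of_directed_nonempty_isCompact_isClosed
        (fun a ha b hb => by
          rcases hchain.total ha hb with h | h
          · exact ⟨a, ha, Subset.rfl, h⟩
          · exact ⟨b, hb, h, Subset.rfl⟩) (fun s hs => (hIc s hs).nonempty)
        (fun s hs => hc.of_isClosed_subset (hIc s hs).closed (hIc s hs).sub)
        (fun s hs => (hIc s hs).closed)
    · intro x q hq s hs
      exact (hIc s hs).inv x q (hq s hs)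
  have hQI : K.Inv Q := hQ.prop
  refine ⟨Q, ⟨hQI, fun Q' hQ' hI => ?_⟩, ?_⟩
  · exact Subset.antisymm hQ' (hQ.le_of_le (show Q' ∈ {Q : Set (XX D) | K.Inv Q} from hI) hQ')
  · exact (hc.of_isClosed_subset hQI.closed hQI.sub).extremePoints_nonempty hQI.nonempty

end Pool.Agent.H100R2.MH
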