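import Mathlib
import Pool.Agent.H100R2.MH.Stubs

set_option autoImplicit false

namespace Pool.Agent.H100R2.MH

open Topology Filter Set
open Pool.Agent.Helper974.Moufang (kk FF IsMoufang FF_cont kk_kk kk_kei)

universe u

namespace T04aux

variable {D : Type u} [TopologicalSpace D]

theorem push_mem (g : C(D, D)) (p : XX D) (hp : p ∈ St D) : push g p ∈ St D := by
  obtain ⟨h1, h2, h3, h4⟩ := hp
  refine ⟨fun f h => ?_, fun c f => ?_, ?_, fun f hf => ?_⟩
  · exact h1 (f.comp g) (h.comp g)
  · exact h2 c (f.comp g)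
  · exact h3
  · exact h4 (f.comp g) (fun x => hf (g x))

theorem act_append (K : Kei3 D) (l l' : List D) (z : D) :
    K.act (l ++ l') z = K.act l (K.act l' z) := by
  induction l with
  | nil => rfl
  | cons x l ih =>
    show K.r x (K.act (l ++ l') z) = K.r x (K.act l (K.act l' z))
    rw [ih]

theorem act_rev (K : Kei3 D) (l : List D) : ∀ z, K.act l (K.act l.reverse z) = z := by
  induction l with
  | nil => intro z; rfl
  | cons x l ih =>
    intro z
    rw [List.reverse_cons, act_append]
    show K.r x (K.act l (K.act l.reverse (K.r x z))) = z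
    rw [ih, K.inv]

theorem rev_act (K : Kei3 D) (l : List D) (z : D) : K.act l.reverse (K.act l z) = z := by
  have h := act_rev K l.reverse z
  rwa [List.reverse_reverse] at h

theorem act_r (K : Kei3 D) (l : List D) (y z : D) :
    K.act l (K.r y z) = K.r (K.act l y) (K.act l z) := by
  induction l with
  | nil => rfl
  | cons x l ih =>
    show K.r x (K.act l (K.r y z)) = K.r (K.r x (K.act l y)) (K.r x (K.act l z))
    rw [ih, K.kei]

theorem act_t (K : Kei3 D) (l : List D) (y z : D) (h : K.t y ≠ K.t z) :
    K.t (K.act l y) ≠ K.t (K.act l z) := by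
  induction l with
  | nil => exact h
  | cons x l ih =>
    show K.t (K.r x (K.act l y)) ≠ K.t (K.r x (K.act l z))
    rw [K.tr, K.tr]
    intro heq
    apply ih
    rw [← kk_kk (K.t x) (K.t (K.act l y)), heq, kk_kk]

theorem push_cons (K : Kei3 D) (x : D) (l : List D) (q : XX D) :
    push (K.act (x :: l)) q = push (K.rc x) (push (K.act l) q) := rfl

theorem push_nil (K : Kei3 D) (q : XX D) : push (K.act []) q = q := rfl

theorem act_inv (K : Kei3 D) (Q : Set (XX D)) (hQ : K.Inv Q) (l : List D) (q : XX D)
    (hq : q ∈ Q) : push (K.act l) q ∈ Q := by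
  induction l with
  | nil => exact hq
  | cons x l ih =>
    rw [push_cons]
    exact hQ.inv x _ ih

theorem push_rc (K : Kei3 D) (l : List D) (x : D) (p : XX D) :
    push (K.act l) (push (K.rc x) p) = push (K.rc (K.act l x)) (push (K.act l) p) := by
  funext f
  show p ((f.comp (K.act l)).comp (K.rc x)) = p ((f.comp (K.rc (K.act l x))).comp (K.act l))
  congr 1
  ext z
  show f (K.act l (K.r x z)) = f (K.r (K.act l x) (K.act l z))
  rw [act_r]

theorem ind_comp (K : Kei3 D) (x : D) (i : Fin 3) :
    (K.ind i).comp (K.rc x) = K.ind (kk (K.t x) i) := by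
  ext z
  show (if K.t (K.r x z) = i then (1 : ℝ) else 0) = if K.t z = kk (K.t x) i then 1 else 0
  have h : K.t (K.r x z) = i ↔ K.t z = kk (K.t x) i := by
    rw [K.tr]
    constructor
    · intro h
      rw [← h, kk_kk]
    · intro h
      rw [h, kk_kk]
  by_cases h1 : K.t (K.r x z) = i
  · rw [if_pos h1, if_pos (h.mp h1)]
  · rw [if_neg h1, if_neg (fun h2 => h1 (h.mpr h2))]

theorem act_third (K : Kei3 D) (l : List D) (p : XX D) (hp : ∀ i, p (K.ind i) = 1 / 3) :
    ∀ i, push (K.act l) p (K.ind i) = 1 / 3 := by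
  induction l with
  | nil => exact hp
  | cons x l ih =>
    intro i
    rw [push_cons, push_apply, ind_comp]
    exact ih _

end T04aux

theorem t04 : T04.{u} := by
  intro D _ _ _ K
  exact ⟨fun g p hp => T04aux.push_mem g p hp, T04aux.act_append K, T04aux.act_rev K,
    T04aux.rev_act K, T04aux.act_r K, T04aux.act_t K,
    fun Q hQ l q hq => T04aux.act_inv K Q hQ l q hq, fun l x p => T04aux.push_rc K l x p,
    fun l p _ h => T04aux.act_third K l p h⟩

end Pool.Agent.H100R2.MH
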