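import Pool.Agent.H100R2.MH.Stubs

set_option autoImplicit false

namespace Pool.Agent.H100R2.MH

open Topology Filter Set
open Pool.Agent.Helper974.Moufang (kk FF IsMoufang FF_cont kk_kk kk_kei)

universe u

section T05sec
variable {D : Type u} [TopologicalSpace D] [CompactSpace D] [T2Space D]

theorem t05_sub {q : XX D} (hq : q ∈ St D) (f g : C(D, ℝ)) : q (f - g) = q f - q g := by
  have h1 : f - g = f + (-1 : ℝ) • g := by
    ext x
    simp [sub_eq_add_neg]
  rw [h1, hq.1, hq.2.1]
  ring

theorem t05_mono {q : XX D} (hq : q ∈ St D) {f g : C(D, ℝ)} (h : ∀ x, f x ≤ g x) : q f ≤ q g := by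
  have h1 : 0 ≤ q (g - f) := hq.2.2.2 _ fun x => by
    rw [ContinuousMap.sub_apply]
    linarith [h x]
  rw [t05_sub hq] at h1
  linarith

theorem t05_const {q : XX D} (hq : q ∈ St D) (c : ℝ) : q (c • (1 : C(D, ℝ))) = c := by
  rw [hq.2.1, hq.2.2.1, mul_one]

theorem t05_lip {q : XX D} (hq : q ∈ St D) (f g : C(D, ℝ)) : |q f - q g| ≤ ‖f - g‖ := by
  rw [← t05_sub hq, abs_le]
  have hb : ∀ x, |(f - g) x| ≤ ‖f - g‖ := fun x => (f - g).norm_coe_le_norm x
  constructor
  · have h1 := t05_mono hq (f := (-‖f - g‖) • (1 : C(D, ℝ))) (g := f - g) (fun x => by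
      have := (abs_le.mp (hb x)).1
      simpa using this)
    rwa [t05_const hq] at h1
  · have h1 := t05_mono hq (f := f - g) (g := ‖f - g‖ • (1 : C(D, ℝ))) (fun x => by
      have := (abs_le.mp (hb x)).2
      simpa using this)
    rwa [t05_const hq] at h1

theorem t05_cont {q : XX D} (hq : q ∈ St D) : Continuous q := by
  have h1 : LipschitzWith 1 q := by
    refine LipschitzWith.of_dist_le_mul fun f g => ?_
    rw [Real.dist_eq, dist_eq_norm, NNReal.coe_one, one_mul]
    exact t05_lip hq f g
  exact h1.continuous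

theorem t05_slice_cont (K : Kei3 D) {q : XX D} (hq : q ∈ St D) (f : C(D, ℝ)) :
    Continuous (fun x => q (f.comp (K.rc x))) := by
  refine (t05_cont hq).comp ?_
  have h1 := (ContinuousMap.curry ⟨fun p : D × D => f (K.r p.1 p.2), f.continuous.comp K.cont⟩).continuous
  exact h1

theorem t05_slice (K : Kei3 D) {q : XX D} (hq : q ∈ St D) (f : C(D, ℝ)) (x : D) :
    K.slice q f x = q (f.comp (K.rc x)) := by
  unfold Kei3.slice
  rw [dif_pos (t05_slice_cont K hq f)]
  rfl

theorem t05_push (g : C(D, D)) {p : XX D} (hp : p ∈ St D) : push g p ∈ St D := by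
  refine ⟨fun f f' => ?_, fun c f => ?_, ?_, fun f hf => ?_⟩
  · rw [push_apply, push_apply, push_apply, ← hp.1]
    rfl
  · rw [push_apply, push_apply, ← hp.2.1]
    rfl
  · rw [push_apply]
    exact hp.2.2.1
  · rw [push_apply]
    exact hp.2.2.2 _ fun x => hf _

theorem t05_act (K : Kei3 D) (l : List D) (x z : D) :
    K.act l (K.r x z) = K.r (K.act l x) (K.act l z) := by
  induction l with
  | nil => rfl
  | cons a l ih =>
    show K.r a (K.act l (K.r x z)) = K.r (K.r a (K.act l x)) (K.r a (K.act l z))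
    rw [ih, K.kei]

end T05sec

theorem t05 : T05.{u} := by
  intro D _ _ _ K
  refine ⟨fun q hq f x => t05_slice K hq f x, ?_, fun p p' q a b => rfl, ?_, ?_⟩
  · intro p hp q hq
    refine ⟨fun f g => ?_, fun c f => ?_, ?_, fun f hf => ?_⟩
    · show p (K.slice q (f + g)) = p (K.slice q f) + p (K.slice q g)
      rw [← hp.1]
      congr 1
      ext x
      rw [ContinuousMap.add_apply, t05_slice K hq, t05_slice K hq, t05_slice K hq, ← hq.1]
      rfl
    · show p (K.slice q (c • f)) = c * p (K.slice q f)
      rw [← hp.2.1]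
      congr 1
      ext x
      rw [ContinuousMap.smul_apply, t05_slice K hq, t05_slice K hq, smul_eq_mul, ← hq.2.1]
      rfl
    · show p (K.slice q 1) = 1
      have h1 : K.slice q 1 = 1 := by
        ext x
        rw [t05_slice K hq]
        exact hq.2.2.1
      rw [h1]
      exact hp.2.2.1
    · show 0 ≤ p (K.slice q f)
      refine hp.2.2.2 _ fun x => ?_
      rw [t05_slice K hq]
      exact hq.2.2.2 _ fun z => hf _
  · intro q hq x
    funext f
    show K.slice q f x = push (K.rc x) q f
    rw [t05_slice K hq, push_apply]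
  · intro l p hp q hq
    funext f
    rw [push_apply]
    show p (K.slice q (f.comp (K.act l))) = push (K.act l) p (K.slice (push (K.act l) q) f)
    rw [push_apply]
    congr 1
    ext x
    rw [t05_slice K hq, ContinuousMap.comp_apply, t05_slice K (t05_push _ hq), push_apply]
    congr 1
    ext z
    show f (K.act l (K.r x z)) = f (K.r (K.act l x) (K.act l z))
    rw [t05_act]

end Pool.Agent.H100R2.MH
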