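import Pool.Agent.H100R2.MH.Stubs

set_option autoImplicit false

universe u

namespace Pool.Agent.H100R2.MH

open Topology Filter Set

theorem t06_sub {D : Type u} [TopologicalSpace D] {q : XX D} (hq : q ∈ St D) (f g : C(D, ℝ)) :
    q (f - g) = q f - q g := by
  obtain ⟨h1, h2, _, _⟩ := hq
  have : f - g = f + (-1 : ℝ) • g := by
    rw [neg_smul, one_smul, sub_eq_add_neg]
  rw [this, h1, h2]
  ring

theorem t06_cont {D : Type u} [TopologicalSpace D] [CompactSpace D] (K : Kei3 D) (f : C(D, ℝ)) :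
    Continuous (fun x => f.comp (K.rc x)) := by
  have h : Continuous (fun p : D × D => f (K.r p.1 p.2)) := f.continuous.comp K.cont
  have h2 := (ContinuousMap.curry ⟨fun p : D × D => f (K.r p.1 p.2), h⟩).continuous
  have e : (fun x => f.comp (K.rc x)) =
      ⇑(ContinuousMap.curry ⟨fun p : D × D => f (K.r p.1 p.2), h⟩) := by
    funext x
    ext y
    rfl
  rw [e]
  exact h2

theorem t06_unif (h01 : T01.{u}) (h05 : T05.{u}) (D : Type u) [TopologicalSpace D]
    [CompactSpace D] [T2Space D] (K : Kei3 D)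
    (ι : Type u) (F : Filter ι) (q : ι → XX D) (q' : XX D) (hq : ∀ i, q i ∈ St D) (hq' : q' ∈ St D)
    (hF : Tendsto q F (𝓝 q')) (f : C(D, ℝ)) :
    Tendsto (fun i => ‖K.slice (q i) f - K.slice q' f‖) F (𝓝 0) := by
  rw [Metric.tendsto_nhds]
  intro ε hε
  have hc := t06_cont K f
  have hε4 : 0 < ε / 4 := by positivity
  obtain ⟨t, ht⟩ := CompactSpace.elim_nhds_subcover
    (fun x => {y | dist (f.comp (K.rc y)) (f.comp (K.rc x)) < ε / 4})
    (fun x => by
      have := Metric.tendsto_nhds.1 (hc.tendsto x) (ε / 4) hε4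
      exact this)
  have hev : ∀ᶠ i in F, ∀ x ∈ t, |q i (f.comp (K.rc x)) - q' (f.comp (K.rc x))| < ε / 4 := by
    rw [Filter.eventually_all_finset]
    intro x _
    have h1 := (tendsto_pi_nhds.1 hF) (f.comp (K.rc x))
    have := Metric.tendsto_nhds.1 h1 (ε / 4) hε4
    filter_upwards [this] with i hi
    rwa [Real.dist_eq] at hi
  have hbd := (h01 D).2.2.1
  have hsl := (h05 D K).1
  filter_upwards [hev] with i hi
  rw [Real.dist_eq, sub_zero, abs_of_nonneg (norm_nonneg _)]
  refine lt_of_le_of_lt ?_ (show 3 * (ε / 4) < ε by linarith)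
  rw [ContinuousMap.norm_le _ (by positivity)]
  intro y
  rw [ContinuousMap.sub_apply, hsl _ (hq i), hsl _ hq', Real.norm_eq_abs]
  obtain ⟨x, hx, hyx⟩ : ∃ x ∈ t, dist (f.comp (K.rc y)) (f.comp (K.rc x)) < ε / 4 := by
    have : y ∈ ⋃ x ∈ t, {y | dist (f.comp (K.rc y)) (f.comp (K.rc x)) < ε / 4} := by
      rw [ht]; trivial
    simpa using this
  have hn : ‖f.comp (K.rc y) - f.comp (K.rc x)‖ < ε / 4 := by rwa [← dist_eq_norm]
  have a1 := hbd _ (hq i) (f.comp (K.rc y) - f.comp (K.rc x))
  have a2 := hbd _ hq' (f.comp (K.rc y) - f.comp (K.rc x))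
  rw [t06_sub (hq i)] at a1
  rw [t06_sub hq'] at a2
  have a3 := hi x hx
  rw [abs_le] at a1 a2
  rw [abs_lt] at a3
  rw [abs_le]
  constructor <;> linarith

theorem t06 (h01 : T01.{u}) (h05 : T05.{u}) : T06.{u} := by
  intro D _ _ _ K ι F q q' hq hq' hF
  have hbd := (h01 D).2.2.1
  have hsl := (h05 D K).1
  constructor
  · intro p p' hp hp' hP
    rw [tendsto_pi_nhds]
    intro f
    have hu := t06_unif h01 h05 D K ι F q q' hq hq' hF f
    have hpf := (tendsto_pi_nhds.1 hP) (K.slice q' f)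
    have h1 : Tendsto (fun i => p i (K.slice (q i) f - K.slice q' f)) F (𝓝 0) := by
      refine squeeze_zero_norm (fun i => ?_) hu
      rw [Real.norm_eq_abs]
      exact hbd _ (hp i) _
    have h2 := h1.add hpf
    rw [zero_add] at h2
    refine h2.congr (fun i => ?_)
    rw [t06_sub (hp i)]
    simp [Kei3.BB]
  · intro w w' hw
    rw [tendsto_pi_nhds]
    intro f
    have hu := t06_unif h01 h05 D K ι F q q' hq hq' hF f
    have h1 : Tendsto (fun i => (K.slice (q i) f - K.slice q' f) (w i)) F (𝓝 0) := by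
      refine squeeze_zero_norm (fun i => ?_) hu
      exact ContinuousMap.norm_coe_le_norm _ _
    have h2 : Tendsto (fun i => K.slice q' f (w i)) F (𝓝 (K.slice q' f w')) :=
      ((K.slice q' f).continuous.tendsto w').comp hw
    have h3 := h1.add h2
    rw [zero_add] at h3
    have e1 : push (K.rc w') q' f = K.slice q' f w' := by
      rw [hsl _ hq', push_apply]
    rw [e1]
    refine h3.congr (fun i => ?_)
    rw [ContinuousMap.sub_apply, sub_add_cancel, hsl _ (hq i), push_apply]

end Pool.Agent.H100R2.MH
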