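import Pool.Agent.H100R2.MH.Stubs

set_option autoImplicit false

namespace Pool.Agent.H100R2.MH

open Topology Filter Set
open Pool.Agent.Helper974.Moufang (kk FF IsMoufang FF_cont kk_kk kk_kei)

universe u

section T07sec
variable {D : Type u} [TopologicalSpace D]

theorem t07_rep (φ : XX D →L[ℝ] ℝ) : ∃ F : C(D, ℝ), ∀ q ∈ St D, φ q = q F := by
  have hmem : (φ : XX D →ₗ[ℝ] ℝ) ∈ Submodule.span ℝ
      (Set.range fun f : C(D, ℝ) => (LinearMap.proj f : XX D →ₗ[ℝ] ℝ)) := by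
    rw [LinearMap.mem_span_iff_continuous]
    exact φ.continuous
  have key : ∀ ψ ∈ Submodule.span ℝ
      (Set.range fun f : C(D, ℝ) => (LinearMap.proj f : XX D →ₗ[ℝ] ℝ)),
      ∃ F : C(D, ℝ), ∀ q ∈ St D, ψ q = q F := by
    intro ψ hψ
    induction hψ using Submodule.span_induction with
    | mem ψ h =>
      obtain ⟨f, rfl⟩ := h
      exact ⟨f, fun q _ => rfl⟩
    | zero =>
      refine ⟨(0 : ℝ) • (1 : C(D, ℝ)), fun q hq => ?_⟩
      rw [hq.2.1, zero_mul]
      rfl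
    | add a b _ _ ha hb =>
      obtain ⟨F, hF⟩ := ha
      obtain ⟨F', hF'⟩ := hb
      refine ⟨F + F', fun q hq => ?_⟩
      rw [hq.1, ← hF q hq, ← hF' q hq]
      rfl
    | smul c a _ ha =>
      obtain ⟨F, hF⟩ := ha
      refine ⟨c • F, fun q hq => ?_⟩
      rw [hq.2.1, ← hF q hq]
      rfl
  exact key _ hmem

end T07sec

theorem t07 (h05 : T05.{u}) : T07.{u} := by
  intro D _ _ _ K Q hQ p hp q hq
  obtain ⟨h1, h2, -, -, -⟩ := h05 D K
  have hqS : q ∈ St D := hQ.sub hq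
  by_contra hnot
  obtain ⟨φ, u, hφ1, hφ2⟩ := geometric_hahn_banach_closed_point hQ.convex hQ.closed hnot
  obtain ⟨F, hF⟩ := t07_rep φ
  have h3 : φ (K.BB p q) = p (K.slice q F) := hF _ (h2 p hp q hqS)
  have h4 : ∀ x, K.slice q F x ≤ u := by
    intro x
    rw [h1 q hqS F x]
    have h5 := hQ.inv x q hq
    have h6 := hφ1 _ h5
    rw [hF _ (hQ.sub h5), push_apply] at h6
    exact h6.le
  have h7 : p (K.slice q F) ≤ u := by
    have h8 : 0 ≤ p (u • (1 : C(D, ℝ)) + (-1 : ℝ) • K.slice q F) := by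
      refine hp.2.2.2 _ fun x => ?_
      have := h4 x
      simp only [ContinuousMap.add_apply, ContinuousMap.smul_apply, ContinuousMap.one_apply,
        smul_eq_mul]
      linarith
    rw [hp.1, hp.2.1, hp.2.1, hp.2.2.1] at h8
    linarith
  rw [h3] at hφ2
  linarith

end Pool.Agent.H100R2.MH
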