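import Pool.Agent.H100R2.MH.Stubs

set_option autoImplicit false

/-! Task T08: extremality and the support -/

universe u

namespace Pool.Agent.H100R2.MH

open Topology Filter Set

namespace T08aux

variable {D : Type u} [TopologicalSpace D]

theorem zero_of {p : XX D} (hp : p ∈ St D) : p 0 = 0 := by
  have h := hp.2.1 0 0
  rwa [zero_smul, zero_mul] at h

/-- the state `f ↦ p (u f) / p u` -/
theorem state {p : XX D} (hp : p ∈ St D) (u : C(D, ℝ)) (hu : ∀ x, 0 ≤ u x) (hs : 0 < p u) :
    (fun f : C(D, ℝ) => p (u * f) / p u) ∈ St D := by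
  obtain ⟨h1, h2, h3, h4⟩ := hp
  refine ⟨fun f g => ?_, fun c f => ?_, ?_, fun f hf => ?_⟩
  · show p (u * (f + g)) / p u = p (u * f) / p u + p (u * g) / p u
    rw [mul_add, h1, add_div]
  · show p (u * (c • f)) / p u = c * (p (u * f) / p u)
    rw [mul_smul_comm, h2, mul_div_assoc]
  · show p (u * 1) / p u = 1
    rw [mul_one, div_self hs.ne']
  · exact div_nonneg (h4 _ fun x => mul_nonneg (hu x) (hf x)) hs.le

end T08aux

theorem t08 (h01 : T01.{u}) (h05 : T05.{u}) (h07 : T07.{u}) : T08.{u} := by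
  intro D _ _ _ K Q hQ y hy p hp hpy x0 hx0
  obtain ⟨h5a, h5b, h5c, -, -⟩ := h05 D K
  have hyQ : y ∈ Q := hy.1
  have hySt : y ∈ St D := hQ.sub hyQ
  by_contra hne
  -- a function for which the difference is positive
  obtain ⟨f, hf⟩ : ∃ f : C(D, ℝ), 0 < K.slice y f x0 - y f := by
    have h1 : ∃ f : C(D, ℝ), push (K.rc x0) y f ≠ y f := by
      by_contra hc
      push Not at hc
      exact hne (funext hc)
    obtain ⟨f, hf⟩ := h1
    rw [push_apply, ← h5a y hySt] at hf
    rcases lt_or_gt_of_ne hf with h2 | h2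
    · refine ⟨(-1 : ℝ) • f, ?_⟩
      have h3 : ((-1 : ℝ) • f).comp (K.rc x0) = (-1 : ℝ) • (f.comp (K.rc x0)) := rfl
      rw [h5a y hySt] at h2 ⊢
      rw [h3, hySt.2.1, hySt.2.1]
      linarith
    · exact ⟨f, by linarith⟩
  set h : C(D, ℝ) := K.slice y f - (y f) • (1 : C(D, ℝ)) with hh
  have hhx : ∀ x, h x = K.slice y f x - y f := by
    intro x
    rw [hh]
    simp
  set g : C(D, ℝ) := h ⊔ 0 with hg
  have hgx : ∀ x, g x = max (h x) 0 := fun x => rfl
  set c : ℝ := 1 / (2 * (‖g‖ + 1)) with hc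
  have hN : 0 < ‖g‖ + 1 := by positivity
  have hc0 : 0 < c := by positivity
  set u : C(D, ℝ) := c • g with hu
  have hux : ∀ x, u x = c * max (h x) 0 := fun x => rfl
  have hu0 : ∀ x, 0 ≤ u x := fun x => by
    rw [hux]
    positivity
  have hu1 : ∀ x, u x ≤ 1 / 2 := fun x => by
    have h1 : g x ≤ ‖g‖ := (le_abs_self _).trans (g.norm_coe_le_norm x)
    rw [hux, ← hgx, hc, div_mul_eq_mul_div, one_mul, div_le_div_iff₀ (by positivity) (by norm_num)]
    linarith
  have hpos : 0 < h x0 := by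
    rw [hhx]
    exact hf
  have hux0 : 0 < u x0 := by
    rw [hux, max_eq_left hpos.le]
    positivity
  have hs : 0 < p u := hx0 u hu0 hux0
  obtain ⟨p1, p2, p3, p4⟩ := hp
  have hp : p ∈ St D := ⟨p1, p2, p3, p4⟩
  -- the complement
  set w : C(D, ℝ) := 1 + (-1 : ℝ) • u with hw
  have hwx : ∀ x, w x = 1 - u x := by
    intro x
    rw [hw]
    simp
    ring
  have hpw : p w = 1 - p u := by
    rw [hw, p1, p2, p3]
    ring
  have hs1 : p u ≤ 1 / 2 := by
    have h1 := p4 ((1 / 2 : ℝ) • (1 : C(D, ℝ)) + (-1 : ℝ) • u) (fun x => by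
      have h2 := hu1 x
      simp only [ContinuousMap.add_apply, ContinuousMap.smul_apply, ContinuousMap.one_apply,
        smul_eq_mul]
      linarith)
    rw [p1, p2, p2, p3] at h1
    linarith
  have hpw0 : 0 < p w := by
    rw [hpw]
    linarith
  have hw0 : ∀ x, 0 ≤ w x := fun x => by
    rw [hwx]
    have := hu1 x
    linarith
  have hq1 := T08aux.state hp u hu0 hs
  have hq2 := T08aux.state hp w hw0 hpw0
  set q1 : XX D := fun f : C(D, ℝ) => p (u * f) / p u with hq1d
  set q2 : XX D := fun f : C(D, ℝ) => p (w * f) / p w with hq2d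
  have hsum : p = (p u) • q1 + (p w) • q2 := by
    funext f'
    show p f' = p u * (p (u * f') / p u) + p w * (p (w * f') / p w)
    rw [mul_div_cancel₀ _ hs.ne', mul_div_cancel₀ _ hpw0.ne', ← p1, ← add_mul]
    congr 1
    have h1 : u + w = 1 := by
      ext x
      rw [ContinuousMap.add_apply, hwx]
      simp
    rw [h1, one_mul]
  have hBB : y = (p u) • K.BB q1 y + (p w) • K.BB q2 y := by
    rw [← h5c, ← hsum, hpy]
  have hB1 : K.BB q1 y ∈ Q := h07 D K Q hQ q1 hq1 y hyQ
  have hB2 : K.BB q2 y ∈ Q := h07 D K Q hQ q2 hq2 y hyQ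
  have hseg : y ∈ openSegment ℝ (K.BB q1 y) (K.BB q2 y) :=
    ⟨p u, p w, hs, hpw0, by rw [hpw]; ring, hBB.symm⟩
  have hy1 : K.BB q1 y = y := (mem_extremePoints.1 hy).2 _ hB1 _ hB2 hseg |>.1
  -- contradiction
  have h1 : K.BB q1 y f = y f := congrFun hy1 f
  have h2 : p (u * K.slice y f) / p u = y f := h1
  rw [div_eq_iff hs.ne'] at h2
  have h3 : p (u * h) = 0 := by
    have h4 : u * h = u * K.slice y f + (-(y f)) • u := by
      ext x
      simp only [ContinuousMap.mul_apply, ContinuousMap.add_apply, ContinuousMap.smul_apply,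
        smul_eq_mul, hhx]
      ring
    rw [h4, p1, p2, h2]
    ring
  have h5 : 0 < p (u * h) := by
    refine hx0 _ (fun x => ?_) ?_
    · rw [ContinuousMap.mul_apply, hux]
      rcases le_total (h x) 0 with h6 | h6
      · rw [max_eq_right h6]
        simp
      · rw [max_eq_left h6]
        positivity
    · rw [ContinuousMap.mul_apply]
      exact mul_pos hux0 hpos
  linarith

end Pool.Agent.H100R2.MH
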