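import Pool.Agent.H100R2.MH.Stubs

set_option autoImplicit false

namespace Pool.Agent.H100R2.MH

open Topology Filter Set

universe u

namespace T09aux

theorem avg_mem {E : Type*} [AddCommGroup E] [Module ℝ E] {Q : Set E} (hQ : Convex ℝ Q) (m : ℕ)
    (hm : 0 < m) (x : Fin m → E) (hx : ∀ i, x i ∈ Q) : (1 / (m : ℝ)) • ∑ j, x j ∈ Q := by
  rw [Finset.smul_sum]
  apply hQ.sum_mem
  · intros; positivity
  · rw [Finset.sum_const, Finset.card_univ, Fintype.card_fin, nsmul_eq_mul]
    have : (m : ℝ) ≠ 0 := by exact_mod_cast hm.ne'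
    field_simp
  · intro i _; exact hx i

theorem ext_avg {E : Type*} [AddCommGroup E] [Module ℝ E] {Q : Set E} (hQ : Convex ℝ Q) (y : E)
    (hy : y ∈ Q.extremePoints ℝ) (n : ℕ) (x : Fin (n + 1) → E) (hx : ∀ i, x i ∈ Q)
    (h : (1 / ((n + 1 : ℕ) : ℝ)) • ∑ j, x j = y) (i : Fin (n + 1)) : x i = y := by
  rcases Nat.eq_zero_or_pos n with rfl | hn
  · have : i = 0 := Fin.ext (by omega)
    subst this
    simpa using h
  · have hr := avg_mem hQ n hn (fun j => x (i.succAbove j)) (fun j => hx _)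
    have h2 := (mem_extremePoints.1 hy).2 (x i) (hx i) _ hr
    have hn' : (n : ℝ) ≠ 0 := by exact_mod_cast hn.ne'
    refine (h2 ⟨1 / ((n + 1 : ℕ) : ℝ), n / ((n + 1 : ℕ) : ℝ), by positivity, by positivity, ?_, ?_⟩).1
    · push_cast; field_simp; ring
    · rw [← h, Fin.sum_univ_succAbove _ i, smul_add, smul_smul]
      congr 2
      push_cast
      field_simp

end T09aux

open T09aux in
theorem t09 (h01 : T01.{u}) (h02 : T02.{u}) (h04 : T04.{u}) : T09.{u} := by
  intro D _ _ _ K Q hQ y hy n q hq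
  obtain ⟨hStc, hStconv, -, -⟩ := h01 D
  obtain ⟨-, -, -, -, -, -, hact, -, -⟩ := h04 D K
  have hI := hQ.1
  have hQc : IsCompact Q := hStc.of_isClosed_subset hI.closed hI.sub
  have hyQ : y ∈ Q := (mem_extremePoints.1 hy).1
  let x : Fin (n + 1) → XX D := Fin.cons y q
  have hx : ∀ i, x i ∈ Q := by
    intro i
    refine Fin.cases ?_ ?_ i
    · exact hyQ
    · intro j; exact hq j
  let q' : XX D := (1 / ((n + 1 : ℕ) : ℝ)) • ∑ j, x j
  have hq' : q' ∈ Q := avg_mem hI.convex (n + 1) (Nat.succ_pos n) x hx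
  let F : List D → XX D := fun l => push (K.act l) q'
  have hOQ : range F ⊆ Q := by
    rintro _ ⟨l, rfl⟩
    exact hact Q hI l q' hq'
  have hCQ : closure (convexHull ℝ (range F)) ⊆ Q :=
    closure_minimal (convexHull_min hOQ hI.convex) hI.closed
  have hCinv : K.Inv (closure (convexHull ℝ (range F))) := by
    refine ⟨hCQ.trans hI.sub, isClosed_closure, (convex_convexHull ℝ _).closure, ?_, ?_⟩
    · exact ⟨F [], subset_closure (subset_convexHull ℝ _ ⟨[], rfl⟩)⟩
    · intro z
      have hcl : IsClosed (push (K.rc z) ⁻¹' closure (convexHull ℝ (range F))) :=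
        isClosed_closure.preimage (push (K.rc z)).continuous
      have hcv : Convex ℝ (push (K.rc z) ⁻¹' closure (convexHull ℝ (range F))) :=
        (convex_convexHull ℝ _).closure.linear_preimage (push (K.rc z)).toLinearMap
      have hsub : range F ⊆ push (K.rc z) ⁻¹' closure (convexHull ℝ (range F)) := by
        rintro _ ⟨l, rfl⟩
        exact subset_closure (subset_convexHull ℝ _ ⟨z :: l, rfl⟩)
      have := closure_minimal (convexHull_min hsub hcv) hcl
      intro p hp
      exact this hp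
  have hCeq : closure (convexHull ℝ (range F)) = Q := hQ.2 _ hCQ hCinv
  have hymem : y ∈ closure (range F) := by
    refine h02 (XX D) Q (closure (range F)) hQc hI.convex ?_ ?_ ?_ y hy
    · exact hQc.of_isClosed_subset isClosed_closure (closure_minimal hOQ hI.closed)
    · exact closure_minimal hOQ hI.closed
    · rw [← hCeq]
      exact closure_mono (convexHull_mono subset_closure)
  have hne : (comap F (𝓝 y)).NeBot := by
    rw [comap_neBot_iff]
    intro t ht
    obtain ⟨z, hz, ⟨l, rfl⟩⟩ := mem_closure_iff_nhds.1 hymem t ht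
    exact ⟨l, hz⟩
  let 𝒰 : Ultrafilter (List D) := @Ultrafilter.of _ (comap F (𝓝 y)) hne
  have hF : Tendsto F 𝒰 (𝓝 y) := tendsto_comap.mono_left (@Ultrafilter.of_le _ (comap F (𝓝 y)) hne)
  have hlim : ∀ i, ∃ z ∈ Q, Tendsto (fun l => push (K.act l) (x i)) 𝒰 (𝓝 z) := by
    intro i
    obtain ⟨z, hz, hz'⟩ := hQc.ultrafilter_le_nhds (𝒰.map (fun l => push (K.act l) (x i))) (by
      rw [le_principal_iff]
      exact Filter.mem_map.2 (Filter.univ_mem' fun l => hact Q hI l (x i) (hx i)))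
    exact ⟨z, hz, hz'⟩
  choose z hz hzl using hlim
  have hsum : Tendsto (fun l => (1 / ((n + 1 : ℕ) : ℝ)) • ∑ j, push (K.act l) (x j)) 𝒰
      (𝓝 ((1 / ((n + 1 : ℕ) : ℝ)) • ∑ j, z j)) :=
    (tendsto_finsetSum _ (fun j _ => hzl j)).const_smul _
  have hFe : F = fun l => (1 / ((n + 1 : ℕ) : ℝ)) • ∑ j, push (K.act l) (x j) := by
    funext l
    change push (K.act l) ((1 / ((n + 1 : ℕ) : ℝ)) • ∑ j, x j) = _
    rw [map_smul, map_sum]
  have hEq : (1 / ((n + 1 : ℕ) : ℝ)) • ∑ j, z j = y := by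
    rw [← hFe] at hsum
    exact tendsto_nhds_unique hsum hF
  have hall := ext_avg hI.convex y hy n z hz hEq
  refine ⟨𝒰, ?_, ?_⟩
  · have := hzl 0
    rw [hall 0] at this
    exact this
  · intro i
    have := hzl i.succ
    rw [hall i.succ] at this
    exact this

end Pool.Agent.H100R2.MH
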