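import Mathlib
import Pool.Agent.H100R2.MH.Stubs

set_option autoImplicit false

/-!
# T10: the members of a minimal set give mass `1/3` to each colour
-/

namespace Pool.Agent.H100R2.MH

open Topology Filter Set
open Pool.Agent.Helper974.Moufang (kk FF IsMoufang FF_cont kk_kk kk_kei)

universe u

theorem T10_ind_comp {D : Type u} [TopologicalSpace D] (K : Kei3 D) (i : Fin 3) (x : D) :
    (K.ind i).comp (K.rc x) = K.ind (kk (K.t x) i) := by
  ext z
  change (if K.t (K.r x z) = i then (1 : ℝ) else 0) = if K.t z = kk (K.t x) i then (1 : ℝ) else 0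
  have h : K.t (K.r x z) = i ↔ K.t z = kk (K.t x) i := by
    rw [K.tr]
    constructor
    · intro h
      rw [← h, kk_kk]
    · intro h
      rw [h, kk_kk]
  by_cases hz : K.t z = kk (K.t x) i
  · rw [if_pos (h.2 hz), if_pos hz]
  · rw [if_neg (fun h' => hz (h.1 h')), if_neg hz]

theorem T10_sum {D : Type u} [TopologicalSpace D] (K : Kei3 D) (p : XX D) (hp : p ∈ St D) :
    p (K.ind 0) + p (K.ind 1) + p (K.ind 2) = 1 := by
  obtain ⟨hadd, -, h1, -⟩ := hp
  rw [← hadd, ← hadd]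
  have h : K.ind 0 + K.ind 1 + K.ind 2 = (1 : C(D, ℝ)) := by
    ext z
    change (if K.t z = 0 then (1 : ℝ) else 0) + (if K.t z = 1 then (1 : ℝ) else 0) +
      (if K.t z = 2 then (1 : ℝ) else 0) = 1
    generalize K.t z = j
    fin_cases j <;> simp
  rw [h, h1]

theorem t10 (_h01 : T01.{u}) (_h04 : T04.{u}) : T10.{u} := by
  intro D _ _ _ K Q hQ
  obtain ⟨hI, hmin⟩ := hQ
  set Q' : Set (XX D) := {q | q ∈ Q ∧ ∀ i, q (K.ind i) = 1 / 3} with hQ'
  have hsub : Q' ⊆ Q := fun q hq => hq.1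
  have hpush : ∀ (x : D) (q : XX D) (i : Fin 3),
      push (K.rc x) q (K.ind i) = q (K.ind (kk (K.t x) i)) := by
    intro x q i
    rw [push_apply, T10_ind_comp]
  have hne : Q'.Nonempty := by
    obtain ⟨q0, hq0⟩ := hI.nonempty
    obtain ⟨x0, hx0⟩ := K.tsurj 0
    obtain ⟨x1, hx1⟩ := K.tsurj 1
    obtain ⟨x2, hx2⟩ := K.tsurj 2
    have hs0 := T10_sum K q0 (hI.sub hq0)
    set q1 : XX D := (1 / 2 : ℝ) • q0 + (1 / 2 : ℝ) • push (K.rc x0) q0 with hq1
    have hq1Q : q1 ∈ Q := hI.convex hq0 (hI.inv x0 q0 hq0) (by norm_num) (by norm_num) (by norm_num)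
    set q2 : XX D := (1 / 2 : ℝ) • push (K.rc x1) q1 + (1 / 2 : ℝ) • push (K.rc x2) q1 with hq2
    have hq2Q : q2 ∈ Q := hI.convex (hI.inv x1 q1 hq1Q) (hI.inv x2 q1 hq1Q)
      (by norm_num) (by norm_num) (by norm_num)
    set q3 : XX D := (1 / 3 : ℝ) • q1 + (2 / 3 : ℝ) • q2 with hq3
    have hq3Q : q3 ∈ Q := hI.convex hq1Q hq2Q (by norm_num) (by norm_num) (by norm_num)
    refine ⟨q3, hq3Q, ?_⟩
    have e1 : ∀ i, q1 (K.ind i) = 1 / 2 * q0 (K.ind i) + 1 / 2 * q0 (K.ind (kk 0 i)) := by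
      intro i
      change 1 / 2 * q0 (K.ind i) + 1 / 2 * push (K.rc x0) q0 (K.ind i) = _
      rw [hpush, hx0]
    have e2 : ∀ i, q2 (K.ind i) = 1 / 2 * q1 (K.ind (kk 1 i)) + 1 / 2 * q1 (K.ind (kk 2 i)) := by
      intro i
      change 1 / 2 * push (K.rc x1) q1 (K.ind i) + 1 / 2 * push (K.rc x2) q1 (K.ind i) = _
      rw [hpush, hpush, hx1, hx2]
    have e3 : ∀ i, q3 (K.ind i) = 1 / 3 * q1 (K.ind i) + 2 / 3 * q2 (K.ind i) := fun i => rfl
    have k00 : kk 0 0 = 0 := by decide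
    have k01 : kk 0 1 = 2 := by decide
    have k02 : kk 0 2 = 1 := by decide
    have k10 : kk 1 0 = 2 := by decide
    have k11 : kk 1 1 = 1 := by decide
    have k12 : kk 1 2 = 0 := by decide
    have k20 : kk 2 0 = 1 := by decide
    have k21 : kk 2 1 = 0 := by decide
    have k22 : kk 2 2 = 2 := by decide
    intro i
    have a0 := e1 0
    have a1 := e1 1
    have a2 := e1 2
    have b0 := e2 0
    have b1 := e2 1
    have b2 := e2 2
    rw [k00] at a0
    rw [k01] at a1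
    rw [k02] at a2
    rw [k10, k20] at b0
    rw [k11, k21] at b1
    rw [k12, k22] at b2
    have c := e3 i
    rw [c]
    fin_cases i
    · change 1 / 3 * q1 (K.ind 0) + 2 / 3 * q2 (K.ind 0) = 1 / 3
      linarith
    · change 1 / 3 * q1 (K.ind 1) + 2 / 3 * q2 (K.ind 1) = 1 / 3
      linarith
    · change 1 / 3 * q1 (K.ind 2) + 2 / 3 * q2 (K.ind 2) = 1 / 3
      linarith
  have hInv : K.Inv Q' := by
    refine ⟨fun q hq => hI.sub hq.1, ?_, ?_, hne, ?_⟩
    · have h1 : Q' = Q ∩ ⋂ i : Fin 3, {q : XX D | q (K.ind i) = 1 / 3} := by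
        ext q
        simp [hQ', Set.mem_iInter]
      rw [h1]
      refine hI.closed.inter (isClosed_iInter fun i => ?_)
      exact isClosed_eq (continuous_apply (K.ind i)) continuous_const
    · intro p hp q hq a b ha hb hab
      refine ⟨hI.convex hp.1 hq.1 ha hb hab, fun i => ?_⟩
      change a * p (K.ind i) + b * q (K.ind i) = 1 / 3
      rw [hp.2 i, hq.2 i, ← add_mul, hab, one_mul]
    · intro x q hq
      refine ⟨hI.inv x q hq.1, fun i => ?_⟩
      rw [hpush]
      exact hq.2 _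
  have heq : Q' = Q := hmin Q' hsub hInv
  intro q hq i
  rw [← heq] at hq
  exact hq.2 i

end Pool.Agent.H100R2.MH
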