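import Pool.Agent.H100R2.MH.Stubs

set_option autoImplicit false

universe u

namespace Pool.Agent.H100R2.MH

open Topology Filter Set

theorem t11 : T11.{u} := by
  intro D _ _ _ K p hp
  obtain ⟨hadd, hsmul, hone, hpos⟩ := hp
  constructor
  · intro hthird i
    by_contra hcon
    push Not at hcon
    have hS : IsCompact {x | K.t x = i} := by
      apply IsClosed.isCompact
      exact (isClosed_discrete ({i} : Set (Fin 3))).preimage K.tcont
    have hcov : ∃ u : C(D, ℝ), (∀ z, 0 ≤ u z) ∧ (∀ z ∈ {x | K.t x = i}, 0 < u z) ∧ p u ≤ 0 := by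
      apply IsCompact.induction_on (p := fun s : Set D =>
        ∃ u : C(D, ℝ), (∀ z, 0 ≤ u z) ∧ (∀ z ∈ s, 0 < u z) ∧ p u ≤ 0) hS
      · refine ⟨0, fun z => by simp, fun z hz => by simp at hz, ?_⟩
        have h := hsmul 0 0
        rw [zero_smul, zero_mul] at h
        exact h.le
      · rintro s t hst ⟨u, h1, h2, h3⟩
        exact ⟨u, h1, fun z hz => h2 z (hst hz), h3⟩
      · rintro s t ⟨u, h1, h2, h3⟩ ⟨v, h4, h5, h6⟩
        refine ⟨u + v, fun z => ?_, fun z hz => ?_, ?_⟩
        · rw [ContinuousMap.add_apply]
          exact add_nonneg (h1 z) (h4 z)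
        · rw [ContinuousMap.add_apply]
          rcases hz with hz | hz
          · have := h2 z hz
            have := h4 z
            linarith
          · have := h5 z hz
            have := h1 z
            linarith
        · rw [hadd]
          linarith
      · intro x hx
        have hx' := hcon x
        have hns : x ∉ supp p := fun hmem => hx' hmem hx
        unfold supp at hns
        rw [Set.mem_setOf_eq] at hns
        push Not at hns
        obtain ⟨u, h1, h2, h3⟩ := hns
        refine ⟨{z | 0 < u z}, ?_, u, h1, fun z hz => hz, h3⟩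
        apply mem_nhdsWithin_of_mem_nhds
        exact (isOpen_lt continuous_const u.continuous).mem_nhds h2
    obtain ⟨u, h1, h2, h3⟩ := hcov
    obtain ⟨x0, hx0⟩ := K.tsurj i
    obtain ⟨z0, hz0, hmin⟩ := hS.exists_isMinOn ⟨x0, hx0⟩ u.continuous.continuousOn
    have hc : 0 < u z0 := h2 z0 hz0
    have hd : ∀ x, 0 ≤ (u - (u z0) • K.ind i) x := by
      intro x
      rw [ContinuousMap.sub_apply, ContinuousMap.smul_apply]
      by_cases hx : K.t x = i
      · have e : K.ind i x = 1 := by
          change (if K.t x = i then (1 : ℝ) else 0) = 1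
          rw [if_pos hx]
        rw [e, smul_eq_mul, mul_one]
        have := hmin hx
        simp only [Set.mem_setOf_eq] at this
        linarith
      · have e : K.ind i x = 0 := by
          change (if K.t x = i then (1 : ℝ) else 0) = 0
          rw [if_neg hx]
        rw [e, smul_zero, sub_zero]
        exact h1 x
    have h4 := hpos _ hd
    have h5 := hadd (u - (u z0) • K.ind i) ((u z0) • K.ind i)
    rw [sub_add_cancel, hsmul, hthird i] at h5
    nlinarith
  · intro x hx z hz
    intro u hu huz
    have h1 := hz (u.comp (K.rc x)) (fun w => hu _) huz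
    have h2 : push (K.rc x) p u = p u := by rw [hx]
    rw [push_apply] at h2
    rw [← h2]
    exact h1

end Pool.Agent.H100R2.MH
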