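import Pool.Agent.H100R2.MH.Stubs

set_option autoImplicit false

/-! T12: an extreme point of a minimal set is idempotent. -/

namespace Pool.Agent.H100R2.MH

open Topology Filter Set

universe u

theorem t12 (_h01 : T01.{u}) (h04 : T04.{u}) (h05 : T05.{u}) (h06 : T06.{u}) (h07 : T07.{u})
    (h09 : T09.{u}) : T12.{u} := by
  intro D _ _ _ K Q hQ y hy
  have hyQ : y ∈ Q := hy.1
  have hyS : y ∈ St D := hQ.1.sub hyQ
  have hBB : K.BB y y ∈ Q := h07 D K Q hQ.1 y hyS y hyQ
  obtain ⟨hpush, -⟩ := h04 D K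
  obtain ⟨-, -, -, -, hact⟩ := h05 D K
  obtain ⟨𝒰, h1, h2⟩ := h09 D K Q hQ y hy 1 (fun _ => K.BB y y) (fun _ => hBB)
  have h2' := h2 0
  have h3 : Tendsto (fun l => K.BB (push (K.act l) y) (push (K.act l) y))
      (𝒰 : Filter (List D)) (𝓝 (K.BB y y)) :=
    (h06 D K (List D) (𝒰 : Filter (List D)) (fun l => push (K.act l) y) y
      (fun l => hpush (K.act l) y hyS) hyS h1).1 (fun l => push (K.act l) y) y
      (fun l => hpush (K.act l) y hyS) hyS h1
  have h4 : (fun l => K.BB (push (K.act l) y) (push (K.act l) y)) =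
      fun l => push (K.act l) (K.BB y y) := by
    funext l
    exact (hact l y hyS y hyS).symm
  rw [h4] at h3
  exact tendsto_nhds_unique h3 h2'

end Pool.Agent.H100R2.MH
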