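import Pool.Agent.H100R2.MH.Stubs

/-! Task T13 (helper196): the support of an extreme point is the set of the reflections fixing it. -/

set_option autoImplicit false

namespace Pool.Agent.H100R2.MH

universe u

theorem t13 (_h05 : T05.{u}) (h08 : T08.{u}) (h10 : T10.{u}) (h11 : T11.{u}) (h12 : T12.{u}) :
    T13.{u} := by
  intro D _ _ _ K Q hQ y hy x
  have hyQ : y ∈ Q := hy.1
  have hyS : y ∈ St D := hQ.1.sub hyQ
  have hfwd : ∀ z ∈ supp y, push (K.rc z) y = y :=
    h08 D K Q hQ.1 y hy y hyS (h12 D K Q hQ y hy)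
  refine ⟨hfwd x, fun hx => ?_⟩
  obtain ⟨h1, h2⟩ := h11 D K y hyS
  obtain ⟨z, hz, hzt⟩ := h1 (h10 D K Q hQ y hyQ) (K.t x + 1)
  have hne : K.t x ≠ K.t z := by
    rw [hzt]
    generalize K.t x = i
    revert i
    decide
  have h3 : K.r x z ∈ supp y := h2 x hx z hz
  have h4 : K.r z (K.r x z) ∈ supp y := h2 z (hfwd z hz) _ h3
  rwa [K.comm x z hne, K.inv] at h4

end Pool.Agent.H100R2.MH
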