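import Mathlib
import Pool.Agent.H100R2.MH.Stubs

set_option autoImplicit false

namespace Pool.Agent.H100R2.MH

open Topology Filter Set
open Pool.Agent.Helper974.Moufang (kk FF IsMoufang FF_cont kk_kk kk_kei)

universe u

theorem t16 (h04 : T04.{u}) : T16.{u} := by
  intro D _ _ _ K S n E 𝒰 hS hE m hW
  obtain ⟨-, -, h3, -, h5, -⟩ := h04 D K
  have lims : ∀ u : List D → D, ∃ u' : D, Tendsto (fun l => K.act l (u l)) 𝒰 (𝓝 u') := by
    intro u
    refine ⟨(𝒰.map (fun l => K.act l (u l))).lim, ?_⟩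
    exact Ultrafilter.le_nhds_lim _
  have claim : ∀ m, ∀ (x : List D → D) (w : D),
      (∀ᶠ l in (𝒰 : Filter (List D)), x l ∈ K.W (⋃ j, E j) m) →
      Tendsto (fun l => K.act l (x l)) 𝒰 (𝓝 w) → w ∈ S := by
    intro m
    induction m with
    | zero =>
      intro x w hx hw
      have hx2 : (⋃ j ∈ (Set.univ : Set (Fin n)), {l | x l ∈ E j}) ∈ 𝒰 := by
        refine Filter.mem_of_superset hx ?_
        intro l hl
        simpa [Kei3.W] using hl
      rw [Ultrafilter.finite_biUnion_mem_iff Set.finite_univ] at hx2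
      obtain ⟨j, -, hj⟩ := hx2
      exact hE j x w hj hw
    | succ m ih =>
      intro x w hx hw
      have hx2 : (∀ᶠ l in (𝒰 : Filter (List D)), x l ∈ K.W (⋃ j, E j) m) ∨
          (∀ᶠ l in (𝒰 : Filter (List D)), x l ∈ {z | ∃ u ∈ K.W (⋃ j, E j) m,
            ∃ v ∈ K.W (⋃ j, E j) m, z = K.r u v}) := by
        rw [← Ultrafilter.eventually_or]
        exact hx
      rcases hx2 with hx2 | hx2
      · exact ih x w hx2 hw
      · have hch : ∀ l, ∃ uv : D × D, x l ∈ {z | ∃ u ∈ K.W (⋃ j, E j) m,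
            ∃ v ∈ K.W (⋃ j, E j) m, z = K.r u v} → uv.1 ∈ K.W (⋃ j, E j) m ∧
            uv.2 ∈ K.W (⋃ j, E j) m ∧ x l = K.r uv.1 uv.2 := by
          intro l
          by_cases hl : x l ∈ {z | ∃ u ∈ K.W (⋃ j, E j) m,
            ∃ v ∈ K.W (⋃ j, E j) m, z = K.r u v}
          · obtain ⟨u, hu, v, hv, huv⟩ := hl
            exact ⟨(u, v), fun _ => ⟨hu, hv, huv⟩⟩
          · exact ⟨(x l, x l), fun h => absurd h hl⟩
        choose uv huv using hch
        obtain ⟨u', hu'⟩ := lims (fun l => (uv l).1)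
        obtain ⟨v', hv'⟩ := lims (fun l => (uv l).2)
        have hu2 : u' ∈ S := ih _ _ (hx2.mono fun l hl => (huv l hl).1) hu'
        have hv2 : v' ∈ S := ih _ _ (hx2.mono fun l hl => (huv l hl).2.1) hv'
        have hlim : Tendsto (fun l => K.r (K.act l (uv l).1) (K.act l (uv l).2)) 𝒰
            (𝓝 (K.r u' v')) :=
          (K.cont.tendsto (u', v')).comp (hu'.prodMk_nhds hv')
        have hlim2 : Tendsto (fun l => K.act l (x l)) 𝒰 (𝓝 (K.r u' v')) := by
          refine hlim.congr' ?_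
          filter_upwards [hx2] with l hl
          rw [(huv l hl).2.2, h5]
        rw [tendsto_nhds_unique hw hlim2]
        exact hS u' hu2 v' hv2
  ext w
  refine ⟨fun _ => mem_univ w, fun _ => ?_⟩
  refine claim m (fun l => K.act l.reverse w) w ?_ ?_
  · rw [hW]
    exact Filter.Eventually.of_forall fun l => mem_univ _
  · have : (fun l : List D => K.act l (K.act l.reverse w)) = fun _ => w := by
      funext l
      exact h3 l w
    rw [this]
    exact tendsto_const_nhds

end Pool.Agent.H100R2.MH
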