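import Mathlib
import Pool.Agent.H100R2.MH.Stubs

set_option autoImplicit false

/-!
# T18: from the kei to the loop (helper908)
-/

namespace Pool.Agent.H100R2.MH

open Topology Filter Set
open Pool.Agent.Helper974.Moufang (kk FF IsMoufang FF_cont kk_kk kk_kei)

universe u

namespace T18aux

variable {G : Type u} [TopologicalSpace G]

/-- the second projection -/
def sndc : C(Fin 3 × G, G) := ⟨Prod.snd, continuous_snd⟩

/-- extension by zero of a function on the third colour -/
noncomputable def ex {mul ldiv rdiv : G → G → G} {e : G} (h : IsMoufang mul ldiv rdiv e)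
    (hm : Continuous (fun p : G × G => mul p.1 p.2)) (hl : Continuous (fun p : G × G => ldiv p.1 p.2))
    (f : C(G, ℝ)) : C(Fin 3 × G, ℝ) := (loopKei h hm hl).ind 2 * f.comp sndc

theorem ex_apply {mul ldiv rdiv : G → G → G} {e : G} (h : IsMoufang mul ldiv rdiv e)
    (hm : Continuous (fun p : G × G => mul p.1 p.2)) (hl : Continuous (fun p : G × G => ldiv p.1 p.2))
    (f : C(G, ℝ)) (j : Fin 3) (x : G) :
    ex h hm hl f (j, x) = (if j = 2 then (1 : ℝ) else 0) * f x := rfl

end T18aux

open T18aux in
theorem t18 : T18.{u} := by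
  intro G _ _ _ mul ldiv rdiv e h hm hl hy
  obtain ⟨y, hy, hi, hinv⟩ := hy
  obtain ⟨hadd, hsmul, hone, hpos⟩ := hy
  have key : ∀ (i : Fin 3) (a : G) (f g : C(G, ℝ)),
      (∀ x, g x = f (FF mul ldiv e i (kk i 2) e (FF mul ldiv e i 2 a x))) →
      y (ex h hm hl g) = y (ex h hm hl f) := by
    intro i a f g hfg
    have h1 : ex h hm hl g = ((ex h hm hl f).comp ((loopKei h hm hl).rc (i, e))).comp
        ((loopKei h hm hl).rc (i, a)) := by
      ext ⟨j, x⟩
      change ex h hm hl g (j, x) = ex h hm hl f
        (kk i (kk i j), FF mul ldiv e i (kk i j) e (FF mul ldiv e i j a x))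
      rw [ex_apply, ex_apply, kk_kk]
      by_cases hj : j = 2
      · subst hj
        rw [hfg]
      · rw [if_neg hj, zero_mul, zero_mul]
    have h2 := congrFun (hinv (i, a)) ((ex h hm hl f).comp ((loopKei h hm hl).rc (i, e)))
    have h3 := congrFun (hinv (i, e)) (ex h hm hl f)
    rw [push_apply] at h2 h3
    rw [h1, h2, h3]
  refine ⟨fun f => 3 * y (ex h hm hl f), ⟨?_, ?_, ?_, ?_⟩, ?_⟩
  · intro f g
    have : ex h hm hl (f + g) = ex h hm hl f + ex h hm hl g := by
      ext ⟨j, x⟩
      rw [ContinuousMap.add_apply, ex_apply, ex_apply, ex_apply, ContinuousMap.add_apply, mul_add]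
    change 3 * y (ex h hm hl (f + g)) = 3 * y (ex h hm hl f) + 3 * y (ex h hm hl g)
    rw [this, hadd, mul_add]
  · intro c f
    have : ex h hm hl (c • f) = c • ex h hm hl f := by
      ext ⟨j, x⟩
      rw [ContinuousMap.smul_apply, ex_apply, ex_apply, ContinuousMap.smul_apply, smul_eq_mul,
        smul_eq_mul]
      ring
    change 3 * y (ex h hm hl (c • f)) = c * (3 * y (ex h hm hl f))
    rw [this, hsmul]
    ring
  · have : ex h hm hl 1 = (loopKei h hm hl).ind 2 := by
      ext ⟨j, x⟩
      rw [ex_apply, ContinuousMap.one_apply, mul_one]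
      rfl
    change 3 * y (ex h hm hl 1) = 1
    rw [this, hi]
    norm_num
  · intro f hf
    refine mul_nonneg (by norm_num) (hpos _ ?_)
    rintro ⟨j, x⟩
    rw [ex_apply]
    refine mul_nonneg ?_ (hf x)
    split_ifs <;> norm_num
  · intro a _
    refine ⟨fun f g hfg => ?_, fun f g hfg => ?_⟩
    · change 3 * y (ex h hm hl g) = 3 * y (ex h hm hl f)
      rw [key 1 a f g]
      intro x
      rw [hfg]
      congr 1
      simp (config := {decide := true}) only [FF, if_true, if_false]
      rw [h.mul_one, h.inv_inv]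
    · change 3 * y (ex h hm hl g) = 3 * y (ex h hm hl f)
      rw [key 0 a f g]
      intro x
      rw [hfg]
      congr 1
      simp (config := {decide := true}) only [FF, if_true, if_false]
      rw [h.one_mul, h.inv_inv]

end Pool.Agent.H100R2.MH
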