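import Mathlib
import Pool.Agent.H100R2.MH.Stubs

set_option autoImplicit false

namespace Pool.Agent.H100R2.MH

open Topology Filter Set
open Pool.Agent.Helper974.Moufang (kk FF IsMoufang FF_cont kk_kk kk_kei)

universe u

theorem t20 : T20.{u} := by
  intro G _ _ _ mul ldiv rdiv e h hm hl E he m
  set K := loopKei h hm hl with hK
  set E' : Set (Fin 3 × G) := {z | z.2 ∈ E} with hE'
  have hmono1 : ∀ n, K.W E' n ⊆ K.W E' (n + 1) := fun n => subset_union_left
  have hmono : ∀ n k, K.W E' n ⊆ K.W E' (n + k) := by
    intro n k
    induction k with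
    | zero => exact subset_rfl
    | succ k ih => exact ih.trans (hmono1 _)
  have hr : ∀ n, ∀ u ∈ K.W E' n, ∀ v ∈ K.W E' n, lk mul ldiv e u v ∈ K.W E' (n + 1) := by
    intro n u hu v hv
    exact Or.inr ⟨u, hu, v, hv, rfl⟩
  induction m with
  | zero =>
    intro z hz
    exact hz
  | succ m ih =>
    rintro ⟨i, z⟩ hz
    have h2 : 2 * (m + 1) = 2 * m + 1 + 1 := by ring
    rw [h2]
    rcases hz with hz | ⟨g, hg, k, hk, hz⟩
    · exact hmono1 _ (hmono1 _ (ih hz))
    · change z = mul g k at hz
      subst hz
      have a1 : ((i + 1, g) : Fin 3 × G) ∈ K.W E' (2 * m) := ih hg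
      have a2 : ((i + 2, k) : Fin 3 × G) ∈ K.W E' (2 * m) := ih hk
      have a3 := hr _ _ a1 _ a2
      have a4 : lk mul ldiv e (i + 1, g) (i + 2, k) = (i, ldiv (mul g k) e) := by
        refine Prod.ext ?_ ?_
        · change kk (i + 1) (i + 2) = i
          clear a1 a2 a3
          revert i; decide
        · change FF mul ldiv e (i + 1) (i + 2) g k = _
          unfold FF
          have b1 : ¬ (i + 2 = i + 1) := by
            clear a1 a2 a3
            revert i; decide
          have b2 : i + 2 = i + 1 + 1 := by
            clear a1 a2 a3 b1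
            revert i; decide
          rw [if_neg b1, if_pos b2]
      rw [a4] at a3
      have a5 : ((i, e) : Fin 3 × G) ∈ K.W E' (2 * m + 1) := by
        have := hmono 0 (2 * m + 1)
        rw [zero_add] at this
        exact this he
      have a6 := hr _ _ a5 _ a3
      have a7 : lk mul ldiv e (i, e) (i, ldiv (mul g k) e) = (i, mul g k) := by
        refine Prod.ext ?_ ?_
        · change kk i i = i
          clear a1 a2 a3 a4 a5 a6
          revert i; decide
        · change FF mul ldiv e i i e (ldiv (mul g k) e) = _
          unfold FF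
          rw [if_pos rfl, h.one_mul, h.mul_one, h.inv_inv]
      rw [a7] at a6
      exact a6

end Pool.Agent.H100R2.MH
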