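import Pool.Agent.H100R2.MH.Stubs
import Pool.Agent.Helper974.Moufang.Words2

set_option autoImplicit false

universe u

namespace Pool.Agent.H100R2.MH

open Topology Filter Set

/-- the powers of an element -/
def T21_pow {G : Type u} (mul : G → G → G) (e x : G) : ℕ → G
  | 0 => e
  | n + 1 => mul x (T21_pow mul e x n)

/-- the averages -/
noncomputable def T21_av {G : Type u} [TopologicalSpace G] (a : ℕ → G) (N : ℕ) : C(G, ℝ) →ₗ[ℝ] ℝ where
  toFun f := ((N : ℝ) + 1)⁻¹ * ∑ n ∈ Finset.range (N + 1), f (a n)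
  map_add' f g := by
    simp only [ContinuousMap.add_apply, Finset.sum_add_distrib, mul_add]
  map_smul' c f := by
    simp only [ContinuousMap.smul_apply, smul_eq_mul, RingHom.id_apply, ← Finset.mul_sum]
    ring

theorem t21 : T21.{u} := by
  intro G _ _ _ mul ldiv rdiv e h hm hl x
  have as : ∀ n, T21_pow mul e x (n + 1) = mul x (T21_pow mul e x n) := fun n => rfl
  have ar : ∀ n, mul (T21_pow mul e x n) x = T21_pow mul e x (n + 1) := by
    intro n
    induction n with
    | zero =>
      show mul e x = mul x e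
      rw [h.one_mul, h.mul_one]
    | succ n ih => rw [as n, h.flex x, ih, as (n + 1)]
  have hst : ∀ N, Pool.Agent.Helper974.Moufang.IsState (T21_av (T21_pow mul e x) N) := by
    intro N
    have hN : (0 : ℝ) < (N : ℝ) + 1 := by positivity
    constructor
    · show ((N : ℝ) + 1)⁻¹ * ∑ n ∈ Finset.range (N + 1), (1 : C(G, ℝ)) (T21_pow mul e x n) = 1
      simp only [ContinuousMap.one_apply, Finset.sum_const, Finset.card_range, nsmul_eq_mul, mul_one]
      push_cast
      exact inv_mul_cancel₀ hN.ne'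
    · intro f hf
      show 0 ≤ ((N : ℝ) + 1)⁻¹ * ∑ n ∈ Finset.range (N + 1), f (T21_pow mul e x n)
      exact mul_nonneg (inv_nonneg.2 hN.le) (Finset.sum_nonneg (fun n _ => hf _))
  obtain ⟨L, hL, hlim⟩ := Pool.Agent.Helper974.Moufang.state_lim (hyperfilter ℕ) _ hst
  have key : ∀ f g : C(G, ℝ), (∀ n, g (T21_pow mul e x n) = f (T21_pow mul e x (n + 1))) →
      L g = L f := by
    intro f g hfg
    have h1 : ∀ N : ℕ, T21_av (T21_pow mul e x) N g - T21_av (T21_pow mul e x) N f =
        ((N : ℝ) + 1)⁻¹ * (f (T21_pow mul e x (N + 1)) - f (T21_pow mul e x 0)) := by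
      intro N
      show ((N : ℝ) + 1)⁻¹ * ∑ n ∈ Finset.range (N + 1), g (T21_pow mul e x n) -
        ((N : ℝ) + 1)⁻¹ * ∑ n ∈ Finset.range (N + 1), f (T21_pow mul e x n) = _
      rw [← mul_sub, ← Finset.sum_sub_distrib]
      congr 1
      rw [Finset.sum_congr rfl (fun n _ => by rw [hfg n])]
      exact Finset.sum_range_sub (fun n => f (T21_pow mul e x n)) (N + 1)
    have h2 : Tendsto (fun N : ℕ => T21_av (T21_pow mul e x) N g - T21_av (T21_pow mul e x) N f)
        atTop (𝓝 0) := by
      refine squeeze_zero_norm (a := fun N : ℕ => (2 * ‖f‖) * (1 / ((N : ℝ) + 1))) ?_ ?_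
      · intro N
        rw [h1, norm_mul, norm_inv, Real.norm_eq_abs ((N : ℝ) + 1),
          abs_of_pos (show (0 : ℝ) < (N : ℝ) + 1 by positivity), mul_comm, one_div]
        refine mul_le_mul_of_nonneg_right ?_ (by positivity)
        refine (norm_sub_le _ _).trans ?_
        have := f.norm_coe_le_norm (T21_pow mul e x (N + 1))
        have := f.norm_coe_le_norm (T21_pow mul e x 0)
        linarith
      · have := (tendsto_one_div_add_atTop_nhds_zero_nat (𝕜 := ℝ)).const_mul (2 * ‖f‖)
        rwa [mul_zero] at this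
    have h3 := tendsto_nhds_unique ((hlim g).sub (hlim f)) (h2.mono_left Nat.hyperfilter_le_atTop)
    linarith
  refine ⟨fun f => L f, ⟨fun f g => map_add L f g, fun c f => ?_, hL.1, hL.2⟩, ?_⟩
  · show L (c • f) = c * L f
    rw [map_smul, smul_eq_mul]
  · intro b hb
    have hb' : b = x := hb
    subst hb'
    exact ⟨fun f g hfg => key f g (fun n => by rw [hfg, ← as]),
      fun f g hfg => key f g (fun n => by rw [hfg, ar])⟩

end Pool.Agent.H100R2.MH
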