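import Mathlib
import Pool.Agent.H100R2.MH.Stubs

set_option autoImplicit false

/-! T22: Baire category (helper940). -/

namespace Pool.Agent.H100R2.MH

open Topology Filter Set
open Pool.Agent.Helper974.Moufang (IsMoufang)

universe u

namespace T22aux

variable {G : Type u} {mul : G → G → G}

theorem PW_mono {E E' : Set G} (h : E ⊆ E') (m : ℕ) : PW mul E m ⊆ PW mul E' m := by
  induction m with
  | zero => exact h
  | succ m ih =>
    rintro z (hz | ⟨x, hx, y, hy, rfl⟩)
    · exact Or.inl (ih hz)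
    · exact Or.inr ⟨x, ih hx, y, ih hy, rfl⟩

theorem PW_mono_right {E : Set G} {m m' : ℕ} (h : m ≤ m') : PW mul E m ⊆ PW mul E m' := by
  induction h with
  | refl => exact subset_rfl
  | step _ ih => exact ih.trans (fun z hz => Or.inl hz)

theorem PW_mul {E : Set G} {m : ℕ} {x y : G} (hx : x ∈ PW mul E m) (hy : y ∈ PW mul E m) :
    mul x y ∈ PW mul E (m + 1) := Or.inr ⟨x, hx, y, hy, rfl⟩

theorem PW_compact [TopologicalSpace G] (hm : Continuous (fun p : G × G => mul p.1 p.2))
    {E : Set G} (hE : IsCompact E) (m : ℕ) : IsCompact (PW mul E m) := by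
  induction m with
  | zero => exact hE
  | succ m ih =>
    have h1 : {z | ∃ u ∈ PW mul E m, ∃ v ∈ PW mul E m, z = mul u v} =
        (fun p : G × G => mul p.1 p.2) '' (PW mul E m ×ˢ PW mul E m) := by
      ext z
      constructor
      · rintro ⟨x, hx, y, hy, rfl⟩
        exact ⟨(x, y), ⟨hx, hy⟩, rfl⟩
      · rintro ⟨⟨x, y⟩, ⟨hx, hy⟩, rfl⟩
        exact ⟨x, hx, y, hy, rfl⟩
    have h2 : PW mul E (m + 1) = PW mul E m ∪
        (fun p : G × G => mul p.1 p.2) '' (PW mul E m ×ˢ PW mul E m) := by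
      rw [← h1]
      rfl
    rw [h2]
    exact ih.union ((ih.prod ih).image hm)

end T22aux

open T22aux in
theorem t22 : T22.{u} := by
  classical
  intro G _ _ _ mul ldiv rdiv e h hm hl _ E hE hgen
  set S : ℕ → Set G := fun N => (⋃ j ∈ Finset.range N, E j) ∪ {e} with hS
  have hSc : ∀ N, IsCompact (S N) := by
    intro N
    have h1 : IsClosed (⋃ j ∈ Finset.range N, E j) :=
      isClosed_biUnion_finset fun j _ => hE j
    exact h1.isCompact.union isCompact_singleton
  have hSm : ∀ {N N' : ℕ}, N ≤ N' → S N ⊆ S N' := by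
    intro N N' hN
    refine union_subset_union_left _ ?_
    intro x hx
    simp only [mem_iUnion, Finset.mem_range, exists_prop] at hx ⊢
    obtain ⟨j, hj, hx⟩ := hx
    exact ⟨j, hj.trans_le hN, hx⟩
  have hU : (⋃ p : ℕ × ℕ, PW mul (S p.1) p.2) = univ := by
    refine hgen _ ?_ ?_ ?_
    · exact mem_iUnion.2 ⟨(0, 0), Or.inr rfl⟩
    · intro j x hx
      refine mem_iUnion.2 ⟨(j + 1, 0), Or.inl ?_⟩
      simp only [mem_iUnion, Finset.mem_range, exists_prop]
      exact ⟨j, j.lt_succ_self, hx⟩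
    · intro x hx y hy
      obtain ⟨⟨N, m⟩, hx⟩ := mem_iUnion.1 hx
      obtain ⟨⟨N', m'⟩, hy⟩ := mem_iUnion.1 hy
      refine mem_iUnion.2 ⟨(max N N', max m m' + 1), ?_⟩
      refine PW_mul ?_ ?_
      · exact PW_mono (hSm (le_max_left N N')) _ (PW_mono_right (le_max_left m m') hx)
      · exact PW_mono (hSm (le_max_right N N')) _ (PW_mono_right (le_max_right m m') hy)
  haveI : Nonempty G := ⟨e⟩
  obtain ⟨⟨N, m⟩, o, ho⟩ := nonempty_interior_of_iUnion_of_closed
    (f := fun p : ℕ × ℕ => PW mul (S p.1) p.2)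
    (fun p => (PW_compact hm (hSc p.1) p.2).isClosed) hU
  have hlx : ∀ x : G, Continuous (ldiv x) := fun x =>
    hl.comp (continuous_const.prodMk continuous_id)
  obtain ⟨t, ht⟩ := isCompact_univ.elim_finite_subcover
    (fun x : G => ldiv x ⁻¹' interior (PW mul (S N) m))
    (fun x => isOpen_interior.preimage (hlx x)) (by
      intro g _
      refine mem_iUnion.2 ⟨rdiv g o, ?_⟩
      show ldiv (rdiv g o) g ∈ interior (PW mul (S N) m)
      have h1 : ldiv (rdiv g o) g = o := by
        have h2 := h.ldiv_mul (rdiv g o) o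
        rwa [h.rdiv_mul] at h2
      rw [h1]
      exact ho)
  refine ⟨N, insert e t, m + 1, Finset.mem_insert_self _ _, ?_⟩
  rw [eq_univ_iff_forall]
  intro g
  obtain ⟨x, hx⟩ := mem_iUnion.1 (ht (mem_univ g))
  obtain ⟨hxt, hx⟩ := mem_iUnion.1 hx
  have h1 : ldiv x g ∈ PW mul (S N) m := interior_subset hx
  have h2 : S N ⊆ (⋃ j ∈ Finset.range N, E j) ∪ ((insert e t : Finset G) : Set G) := by
    refine union_subset_union_right _ ?_
    rw [singleton_subset_iff]
    simp
  have h3 : mul x (ldiv x g) = g := h.mul_ldiv x g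
  rw [← h3]
  refine PW_mul ?_ (PW_mono h2 m h1)
  refine PW_mono_right (Nat.zero_le m) ?_
  refine Or.inr ?_
  simp [hxt]

end Pool.Agent.H100R2.MH
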