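import Mathlib
import Pool.Agent.H100R2.MH.Stubs2

set_option autoImplicit false

namespace Pool.Agent.H100R2.MH

open Topology Filter Set

universe u

/-- a positive functional with positive mass outside of a colour has a point of another colour in
its support -/
theorem t31_supp {D : Type u} [TopologicalSpace D] [CompactSpace D] (K : Kei3 D) (L : XX D)
    (hadd : ∀ f g, L (f + g) = L f + L g) (hsmul : ∀ (c : ℝ) f, L (c • f) = c * L f)
    (hpos : ∀ f : C(D, ℝ), (∀ x, 0 ≤ f x) → 0 ≤ L f) (i : Fin 3)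
    (hm : 0 < L (1 - K.ind i)) :
    ∃ z, K.t z ≠ i ∧ ∀ u : C(D, ℝ), (∀ y, 0 ≤ u y) → 0 < u z → 0 < L u := by
  by_contra hcon
  push Not at hcon
  have hC : IsCompact {z | K.t z ≠ i} := by
    apply IsClosed.isCompact
    exact (isClosed_discrete ({i}ᶜ : Set (Fin 3))).preimage K.tcont
  have hP : ∃ u : C(D, ℝ), (∀ y, 0 ≤ u y) ∧ L u ≤ 0 ∧ ∀ y ∈ {z | K.t z ≠ i}, 1 ≤ u y := by
    refine hC.induction_on (p := fun s => ∃ u : C(D, ℝ), (∀ y, 0 ≤ u y) ∧ L u ≤ 0 ∧
      ∀ y ∈ s, 1 ≤ u y) ?_ ?_ ?_ ?_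
    · refine ⟨0, fun y => le_refl _, ?_, by simp⟩
      have h0 := hsmul 0 0
      rw [zero_smul, zero_mul] at h0
      exact h0.le
    · rintro s t hst ⟨u, h1, h2, h3⟩
      exact ⟨u, h1, h2, fun y hy => h3 y (hst hy)⟩
    · rintro s t ⟨u, h1, h2, h3⟩ ⟨v, k1, k2, k3⟩
      refine ⟨u + v, fun y => add_nonneg (h1 y) (k1 y), by rw [hadd]; linarith, ?_⟩
      rintro y (hy | hy)
      · have a1 := h3 y hy
        have a2 := k1 y
        rw [ContinuousMap.add_apply]
        linarith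
      · have a1 := k3 y hy
        have a2 := h1 y
        rw [ContinuousMap.add_apply]
        linarith
    · intro z hz
      obtain ⟨u, h1, h2, h3⟩ := hcon z hz
      refine ⟨{y | 1 < ((2 / u z) • u) y}, mem_nhdsWithin_of_mem_nhds
        (IsOpen.mem_nhds (isOpen_lt continuous_const (map_continuous _)) ?_), (2 / u z) • u,
        ?_, ?_, fun y hy => le_of_lt hy⟩
      · change 1 < (2 / u z) * u z
        rw [div_mul_cancel₀ _ h2.ne']
        norm_num
      · intro y
        change 0 ≤ (2 / u z) * u y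
        exact mul_nonneg (div_nonneg (by norm_num) h2.le) (h1 y)
      · rw [hsmul]
        exact mul_nonpos_of_nonneg_of_nonpos (div_nonneg (by norm_num) h2.le) h3
  obtain ⟨u, h1, h2, h3⟩ := hP
  have h4 : 0 ≤ L (u - (1 - K.ind i)) := by
    apply hpos
    intro y
    rw [ContinuousMap.sub_apply, ContinuousMap.sub_apply]
    change 0 ≤ u y - (1 - if K.t y = i then (1 : ℝ) else 0)
    by_cases hy : K.t y = i
    · rw [if_pos hy]
      have := h1 y
      linarith
    · rw [if_neg hy]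
      have := h3 y hy
      linarith
  have h5 : L u = L (u - (1 - K.ind i)) + L (1 - K.ind i) := by
    rw [← hadd, sub_add_cancel]
  linarith

/-- the selection lemma, non-singular version -/
theorem t31 (h01 : T01.{u}) (h04 : T04.{u}) (h06 : T06.{u}) : T31.{u} := by
  intro D _ _ _ K S E p ps ε 𝒰 hS hp hps hε hE hlim hsupp x w hx hw
  obtain ⟨h1, -, h3, h3', -, h6, -, h8, -⟩ := h04 D K
  have hbd := (h01 D).2.2.1
  have hst : ∀ l : List D, push (K.act l) p ∈ St D := fun l => h1 _ p hp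
  -- choice of the minorants
  have hch : ∀ l : List D, ∃ lam ∈ Ps D, (∀ f : C(D, ℝ), (∀ z, 0 ≤ f z) → lam f ≤ p f ∧
      lam f ≤ p (f.comp (K.rc (x l)))) ∧ (x l ∈ E → ε ≤ lam (1 - K.ind (K.t (x l)))) := by
    intro l
    by_cases hl : x l ∈ E
    · obtain ⟨lam, a1, a2, a3⟩ := hE _ hl
      exact ⟨lam, a1, a2, fun _ => a3⟩
    · refine ⟨0, ⟨fun f g => by simp, fun c f => by simp, fun f _ => le_refl _⟩, fun f hf =>
        ⟨hp.2.2.2 f hf, hp.2.2.2 _ fun z => hf _⟩, fun h => absurd h hl⟩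
  choose lam hlam1 hlam2 hlam3 using hch
  set Lc : List D → XX D := fun l => push (K.act l) (lam l) with hLc
  have hLadd : ∀ l f g, Lc l (f + g) = Lc l f + Lc l g := fun l f g =>
    (hlam1 l).1 (f.comp (K.act l)) (g.comp (K.act l))
  have hLsmul : ∀ l (c : ℝ) f, Lc l (c • f) = c * Lc l f := fun l c f =>
    (hlam1 l).2.1 c (f.comp (K.act l))
  have hLpos : ∀ l (f : C(D, ℝ)), (∀ z, 0 ≤ f z) → 0 ≤ Lc l f := fun l f hf =>
    (hlam1 l).2.2 _ fun z => hf _
  have hLle : ∀ l (f : C(D, ℝ)), (∀ z, 0 ≤ f z) → Lc l f ≤ push (K.act l) p f := fun l f hf =>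
    (hlam2 l (f.comp (K.act l)) fun z => hf _).1
  have hLle' : ∀ l (f : C(D, ℝ)), (∀ z, 0 ≤ f z) →
      Lc l f ≤ push (K.rc (K.act l (x l))) (push (K.act l) p) f := by
    intro l f hf
    rw [← h8 l (x l) p]
    exact (hlam2 l (f.comp (K.act l)) fun z => hf _).2
  have hLbd : ∀ l f, Lc l f ∈ Icc (-‖f‖) ‖f‖ := by
    intro l f
    have e1 : Lc l 1 ≤ 1 := by
      refine (hLle l 1 fun z => zero_le_one).trans ?_
      rw [(hst l).2.2.1]
    have e0 : 0 ≤ Lc l 1 := hLpos l 1 fun z => zero_le_one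
    have e2 : 0 ≤ Lc l (‖f‖ • 1 + (-1 : ℝ) • f) := hLpos l _ fun z => by
      change 0 ≤ ‖f‖ * 1 + (-1) * f z
      have := (abs_le.1 (Real.norm_eq_abs (f z) ▸ f.norm_coe_le_norm z)).2
      linarith
    have e3 : 0 ≤ Lc l (‖f‖ • 1 + f) := hLpos l _ fun z => by
      change 0 ≤ ‖f‖ * 1 + f z
      have := (abs_le.1 (Real.norm_eq_abs (f z) ▸ f.norm_coe_le_norm z)).1
      linarith
    rw [hLadd, hLsmul, hLsmul] at e2
    rw [hLadd, hLsmul] at e3
    have e4 : ‖f‖ * Lc l 1 ≤ ‖f‖ := mul_le_of_le_one_right (norm_nonneg _) e1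
    exact ⟨by linarith, by linarith⟩
  -- the limit
  have hlimL : ∀ f, ∃ a : ℝ, Tendsto (fun l => Lc l f) 𝒰 (𝓝 a) := by
    intro f
    obtain ⟨a, -, ha⟩ := (isCompact_Icc (a := -‖f‖) (b := ‖f‖)).ultrafilter_le_nhds
      (𝒰.map fun l => Lc l f) (by
        rw [le_principal_iff]
        exact Filter.mem_map.2 (Filter.Eventually.of_forall fun l => hLbd l f))
    exact ⟨a, ha⟩
  choose L hL using hlimL
  have hadd : ∀ f g, L (f + g) = L f + L g := fun f g =>
    tendsto_nhds_unique ((hL (f + g)).congr fun l => hLadd l f g) ((hL f).add (hL g))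
  have hsmul : ∀ (c : ℝ) f, L (c • f) = c * L f := fun c f =>
    tendsto_nhds_unique ((hL (c • f)).congr fun l => hLsmul l c f) ((hL f).const_mul c)
  have hpos : ∀ f : C(D, ℝ), (∀ z, 0 ≤ f z) → 0 ≤ L f := fun f hf =>
    ge_of_tendsto' (hL f) fun l => hLpos l f hf
  have hle : ∀ f : C(D, ℝ), (∀ z, 0 ≤ f z) → L f ≤ ps f := fun f hf =>
    le_of_tendsto_of_tendsto' (hL f) ((tendsto_pi_nhds.1 hlim) f) fun l => hLle l f hf
  have hA : Tendsto (fun l : List D => push (K.rc (K.act l (x l))) (push (K.act l) p)) 𝒰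
      (𝓝 (push (K.rc w) ps)) :=
    (h06 D K (List D) (𝒰 : Filter (List D)) (fun l => push (K.act l) p) ps hst hps hlim).2
      (fun l => K.act l (x l)) w hw
  have hle' : ∀ f : C(D, ℝ), (∀ z, 0 ≤ f z) → L f ≤ ps (f.comp (K.rc w)) := fun f hf =>
    le_of_tendsto_of_tendsto' (hL f) ((tendsto_pi_nhds.1 hA) f) fun l => hLle' l f hf
  -- the mass
  have hcol : ∀ᶠ l in (𝒰 : Filter (List D)), K.t (K.act l (x l)) = K.t w := by
    have ho : IsOpen {y | K.t y = K.t w} := (isOpen_discrete ({K.t w} : Set (Fin 3))).preimage K.tcont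
    exact hw (ho.mem_nhds rfl)
  have hmass : ε ≤ L (1 - K.ind (K.t w)) := by
    refine ge_of_tendsto (hL _) ?_
    filter_upwards [hx, hcol] with l hl hc
    refine (hlam3 l hl).trans (le_of_eq ?_)
    change lam l _ = lam l ((1 - K.ind (K.t w)).comp (K.act l))
    congr 1
    ext y
    change 1 - (if K.t y = K.t (x l) then (1 : ℝ) else 0) =
      1 - (if K.t (K.act l y) = K.t w then (1 : ℝ) else 0)
    rw [← hc]
    have hiff : K.t y = K.t (x l) ↔ K.t (K.act l y) = K.t (K.act l (x l)) := by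
      constructor
      · intro h
        by_contra hne
        have := h6 l.reverse _ _ hne
        rw [h3', h3'] at this
        exact this h
      · intro h
        by_contra hne
        exact h6 l _ _ hne h
    simp only [hiff]
  obtain ⟨z, hzt, hz⟩ := t31_supp K L hadd hsmul hpos (K.t w) (hε.trans_le hmass)
  have hzS : z ∈ S := hsupp fun u hu huz => (hz u hu huz).trans_le (hle u hu)
  have hwz : K.r w z ∈ S := hsupp fun u hu huz => by
    have a1 := hz (u.comp (K.rc w)) (fun y => hu _) huz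
    have a2 := hle' (u.comp (K.rc w)) fun y => hu _
    have a3 : (u.comp (K.rc w)).comp (K.rc w) = u := by
      ext y
      change u (K.r w (K.r w y)) = u y
      rw [K.inv]
    rw [a3] at a2
    exact a1.trans_le a2
  have hfin : K.r z (K.r w z) ∈ S := hS z hzS _ hwz
  rw [K.comm w z (Ne.symm hzt), K.inv z w] at hfin
  exact hfin

end Pool.Agent.H100R2.MH
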