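import Mathlib
import Pool.Agent.H100R2.MH.Stubs2

set_option autoImplicit false

namespace Pool.Agent.H100R2.MH

open Topology Filter Set

universe u

/-- the core theorem, non-singular version -/
theorem t32 (h03 : T03.{u}) (h10 : T10.{u}) (h11 : T11.{u}) (h13 : T13.{u}) (h14 : T14.{u})
    (h16 : T16.{u}) (h31 : T31.{u}) : T32.{u} := by
  intro D _ _ _ K n E p ε hp hε hgood m hW
  obtain ⟨Q, hQ, y, hy⟩ := h03 D K
  have hyQ : y ∈ Q := hy.1
  have hySt : y ∈ St D := hQ.1.sub hyQ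
  obtain ⟨𝒰, hU⟩ := h14 D K Q hQ y hy n p hp
  have hS : ∀ x ∈ supp y, ∀ z ∈ supp y, K.r x z ∈ supp y := fun x hx z hz =>
    (h11 D K y hySt).2 x ((h13 D K Q hQ y hy x).1 hx) z hz
  have hE : ∀ (j : Fin n) (x : List D → D) (w : D), (∀ᶠ l in (𝒰 : Filter (List D)), x l ∈ E j) →
      Tendsto (fun l => K.act l (x l)) 𝒰 (𝓝 w) → w ∈ supp y := by
    intro j x w h1 h2
    obtain ⟨ps, hps, hlim, hfix⟩ := hU j
    exact h31 D K (supp y) (E j) (p j) ps (ε j) 𝒰 hS (hp j) hps (hε j) (hgood j) hlim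
      (fun x hx => (h13 D K Q hQ y hy x).2 (hfix x hx)) x w h1 h2
  have hall := h16 D K (supp y) n E 𝒰 hS hE m hW
  exact ⟨y, hySt, h10 D K Q hQ y hyQ, fun x => (h13 D K Q hQ y hy x).1 (by rw [hall]; trivial)⟩

end Pool.Agent.H100R2.MH
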