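import Mathlib
import Pool.Agent.H100R2.MH.Stubs2

set_option autoImplicit false

/-!
# T33: from the loop to the kei, non-singular version (helper298)
-/

namespace Pool.Agent.H100R2.MH

open Topology Filter Set
open Pool.Agent.Helper974.Moufang (kk FF IsMoufang FF_cont kk_kk kk_kei)

universe u

namespace T33aux

variable {G : Type u} [TopologicalSpace G]

/-- the section at a colour -/
def sec (j : Fin 3) (F : C(Fin 3 × G, ℝ)) : C(G, ℝ) :=
  F.comp ⟨fun x => (j, x), continuous_const.prodMk continuous_id⟩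

theorem sec_apply (j : Fin 3) (F : C(Fin 3 × G, ℝ)) (x : G) : sec j F x = F (j, x) := rfl

end T33aux

open T33aux in
theorem t33 : T33.{u} := by
  intro G _ _ _ mul ldiv rdiv e h hm hl ν hν
  obtain ⟨hadd, hsmul, hone, hpos⟩ := hν
  have hic : Continuous (fun x : G => ldiv x e) := hl.comp (continuous_id.prodMk continuous_const)
  let iv : C(G, G) := ⟨fun x => ldiv x e, hic⟩
  -- the symmetrised state
  let μ : XX G := fun f => (ν f + ν (f.comp iv)) / 2
  have hμdef : ∀ f, μ f = (ν f + ν (f.comp iv)) / 2 := fun _ => rfl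
  have hμadd : ∀ f g, μ (f + g) = μ f + μ g := by
    intro f g
    have h1 : (f + g).comp iv = f.comp iv + g.comp iv := rfl
    rw [hμdef, hμdef, hμdef, h1, hadd, hadd]
    ring
  have hμsmul : ∀ (c : ℝ) f, μ (c • f) = c * μ f := by
    intro c f
    have h1 : (c • f).comp iv = c • f.comp iv := rfl
    rw [hμdef, hμdef, h1, hsmul, hsmul]
    ring
  have hμone : μ 1 = 1 := by
    have h1 : (1 : C(G, ℝ)).comp iv = 1 := rfl
    rw [hμdef, h1, hone]
    norm_num
  have hμpos : ∀ f : C(G, ℝ), (∀ x, 0 ≤ f x) → 0 ≤ μ f := by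
    intro f hf
    have h1 := hpos f hf
    have h2 := hpos (f.comp iv) (fun x => hf _)
    rw [hμdef]
    linarith
  have hμ1 : ∀ f : C(G, ℝ), (∀ x, 0 ≤ f x) → ν f / 2 ≤ μ f := by
    intro f hf
    have h2 := hpos (f.comp iv) (fun x => hf _)
    rw [hμdef]
    linarith
  have hμ2 : ∀ f : C(G, ℝ), (∀ x, 0 ≤ f x) → ν (f.comp iv) / 2 ≤ μ f := by
    intro f hf
    have h2 := hpos f hf
    rw [hμdef]
    linarith
  have hge : ∀ (j : Fin 3) (F : C(Fin 3 × G, ℝ)), (∀ z, 0 ≤ F z) →
      (1 / 3) * μ (sec j F) ≤ (1 / 3) * ∑ j : Fin 3, μ (sec j F) := by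
    intro j F hF
    refine mul_le_mul_of_nonneg_left ?_ (by norm_num)
    exact Finset.single_le_sum (f := fun j : Fin 3 => μ (sec j F)) (fun j _ => hμpos _ fun x => hF _)
      (Finset.mem_univ j)
  refine ⟨fun F => (1 / 3) * ∑ j : Fin 3, μ (sec j F), ⟨?_, ?_, ?_, ?_⟩, ?_⟩
  · intro F F'
    have h1 : ∀ j, sec j (F + F') = sec j F + sec j F' := fun j => rfl
    change (1 / 3) * ∑ j : Fin 3, μ (sec j (F + F')) = (1 / 3) * ∑ j : Fin 3, μ (sec j F) +
      (1 / 3) * ∑ j : Fin 3, μ (sec j F')
    simp only [h1, hμadd, Finset.sum_add_distrib]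
    ring
  · intro c F
    have h1 : ∀ j, sec j (c • F) = c • sec j F := fun j => rfl
    change (1 / 3) * ∑ j : Fin 3, μ (sec j (c • F)) = c * ((1 / 3) * ∑ j : Fin 3, μ (sec j F))
    simp only [h1, hμsmul, ← Finset.mul_sum]
    ring
  · change (1 / 3) * ∑ j : Fin 3, μ (sec j 1) = 1
    have h1 : ∀ j : Fin 3, sec j (1 : C(Fin 3 × G, ℝ)) = 1 := fun j => rfl
    simp only [h1, hμone]
    simp
  · intro F hF
    exact mul_nonneg (by norm_num) (Finset.sum_nonneg fun j _ => hμpos _ fun x => hF _)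
  · intro ε i x hx
    obtain ⟨lam, ⟨ladd, lsmul, lpos⟩, hl1, hl2, hl3⟩ := hx
    have hk1 : kk i (i + 1) = i + 2 := by
      revert i; decide
    have hne1 : i + 1 ≠ i := by
      revert i; decide
    have hne2 : i + 2 ≠ i := by
      revert i; decide
    refine ⟨fun F => (1 / 6) * lam ((sec (i + 2) F).comp iv), ⟨?_, ?_, ?_⟩, ?_, ?_⟩
    · intro F F'
      have h1 : (sec (i + 2) (F + F')).comp iv
        = (sec (i + 2) F).comp iv + (sec (i + 2) F').comp iv := rfl
      change (1 / 6) * lam ((sec (i + 2) (F + F')).comp iv)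
        = (1 / 6) * lam ((sec (i + 2) F).comp iv) + (1 / 6) * lam ((sec (i + 2) F').comp iv)
      rw [h1, ladd]
      ring
    · intro c F
      have h1 : (sec (i + 2) (c • F)).comp iv = c • (sec (i + 2) F).comp iv := rfl
      change (1 / 6) * lam ((sec (i + 2) (c • F)).comp iv)
        = c * ((1 / 6) * lam ((sec (i + 2) F).comp iv))
      rw [h1, lsmul]
      ring
    · intro F hF
      exact mul_nonneg (by norm_num) (lpos _ fun x => hF _)
    · intro F hF
      constructor
      · change (1 / 6) * lam ((sec (i + 2) F).comp iv) ≤ (1 / 3) * ∑ j : Fin 3, μ (sec j F)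
        have h1 := hge (i + 2) F hF
        have h2 := hμ2 (sec (i + 2) F) (fun x => hF _)
        have h3 := hl1 ((sec (i + 2) F).comp iv) (fun x => hF _)
        linarith
      · change (1 / 6) * lam ((sec (i + 2) F).comp iv)
          ≤ (1 / 3) * ∑ j : Fin 3, μ (sec j (F.comp ((loopKei h hm hl).rc (i, x))))
        have h1 := hge (i + 1) (F.comp ((loopKei h hm hl).rc (i, x))) (fun z => hF _)
        have h2 := hμ1 (sec (i + 1) (F.comp ((loopKei h hm hl).rc (i, x)))) (fun z => hF _)
        have h3 := hl2 ((sec (i + 2) F).comp iv)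
          (sec (i + 1) (F.comp ((loopKei h hm hl).rc (i, x)))) (fun z => hF _) (by
            intro z
            change F (kk i (i + 1), FF mul ldiv e i (i + 1) x z) = F (i + 2, ldiv (mul x z) e)
            rw [hk1]
            unfold FF
            rw [if_neg hne1, if_pos rfl])
        linarith
    · change ε / 6 ≤ (1 / 6) * lam ((sec (i + 2) (1 - (loopKei h hm hl).ind i)).comp iv)
      have h1 : (sec (i + 2) (1 - (loopKei h hm hl).ind i)).comp iv = 1 := by
        ext z
        change (1 : ℝ) - (if i + 2 = i then (1 : ℝ) else 0) = 1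
        rw [if_neg hne2, sub_zero]
      rw [h1]
      linarith

end Pool.Agent.H100R2.MH
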