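import Mathlib
import Pool.Agent.H100R2.MH.Stubs2

set_option autoImplicit false

namespace Pool.Agent.H100R2.MH

open Topology Filter Set

universe u

namespace T34x

variable {G : Type u} [TopologicalSpace G] [CompactSpace G]

theorem Ps_sub {p : XX G} (hp : p ∈ Ps G) (f g : C(G, ℝ)) : p (f - g) = p f - p g := by
  have h1 := hp.1 (f - g) g
  rw [sub_add_cancel] at h1
  linarith

theorem Ps_bound {p : XX G} (hp : p ∈ Ps G) (h1 : p 1 ≤ 1) (f : C(G, ℝ)) :
    p f ∈ Icc (-‖f‖) ‖f‖ := by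
  have e1 : p (‖f‖ • (1 : C(G, ℝ))) = ‖f‖ * p 1 := hp.2.1 _ _
  have e2 : ‖f‖ * p 1 ≤ ‖f‖ := mul_le_of_le_one_right (norm_nonneg _) h1
  constructor
  · have h2 : 0 ≤ p (‖f‖ • (1 : C(G, ℝ)) + f) := by
      refine hp.2.2 _ fun x => ?_
      have := (abs_le.1 (by simpa using f.norm_coe_le_norm x : |f x| ≤ ‖f‖)).1
      simp only [ContinuousMap.coe_add, ContinuousMap.coe_smul, ContinuousMap.coe_one,
        Pi.add_apply, Pi.smul_apply, Pi.one_apply, smul_eq_mul, mul_one]
      linarith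
    rw [hp.1, e1] at h2
    linarith
  · have h2 : 0 ≤ p (‖f‖ • (1 : C(G, ℝ)) - f) := by
      refine hp.2.2 _ fun x => ?_
      have := (abs_le.1 (by simpa using f.norm_coe_le_norm x : |f x| ≤ ‖f‖)).2
      simp only [ContinuousMap.coe_sub, ContinuousMap.coe_smul, ContinuousMap.coe_one,
        Pi.sub_apply, Pi.smul_apply, Pi.one_apply, smul_eq_mul, mul_one]
      linarith
    rw [Ps_sub hp, e1] at h2
    linarith

end T34x

open T34x

theorem t34 : T34.{u} := by
  intro G _ _ _ mul hmul ν hν ε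
  have hνP : ν ∈ Ps G := ⟨hν.1, hν.2.1, hν.2.2.2⟩
  have hν1 : ν 1 = 1 := hν.2.2.1
  rw [← closure_subset_iff_isClosed]
  intro a ha
  obtain ⟨U, hU, hUa⟩ := mem_closure_iff_ultrafilter.1 ha
  classical
  let lam : G → XX G := fun b => if h : b ∈ NS mul ν ε then h.choose else 0
  have hlam : ∀ b ∈ NS mul ν ε, lam b ∈ Ps G ∧ (∀ f : C(G, ℝ), (∀ z, 0 ≤ f z) → lam b f ≤ ν f) ∧
      (∀ f g : C(G, ℝ), (∀ z, 0 ≤ f z) → (∀ z, g z = f (mul b z)) → lam b f ≤ ν g) ∧
      ε ≤ lam b 1 := by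
    intro b hb
    have e : lam b = hb.choose := dif_pos hb
    rw [e]
    exact hb.choose_spec
  have hev : ∀ᶠ b in (U : Filter G), b ∈ NS mul ν ε := hU
  have hbd : ∀ b ∈ NS mul ν ε, ∀ f : C(G, ℝ), lam b f ∈ Icc (-‖f‖) ‖f‖ := by
    intro b hb f
    obtain ⟨h1, h2, -, -⟩ := hlam b hb
    refine Ps_bound h1 ?_ f
    have := h2 1 (fun z => by simp)
    rwa [hν1] at this
  -- the limit
  have hcomp : IsCompact (Set.pi univ fun f : C(G, ℝ) => Icc (-‖f‖) ‖f‖) :=
    isCompact_univ_pi fun _ => isCompact_Icc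
  have hmem : ∀ᶠ b in (U : Filter G), lam b ∈ Set.pi univ fun f : C(G, ℝ) => Icc (-‖f‖) ‖f‖ :=
    hev.mono fun b hb f _ => hbd b hb f
  obtain ⟨L, -, hL⟩ := hcomp.ultrafilter_le_nhds (U.map lam) (le_principal_iff.2 hmem)
  have hlim : Tendsto lam U (𝓝 L) := hL
  have hf : ∀ f : C(G, ℝ), Tendsto (fun b => lam b f) U (𝓝 (L f)) := fun f =>
    (tendsto_pi_nhds.1 hlim) f
  refine ⟨L, ⟨?_, ?_, ?_⟩, ?_, ?_, ?_⟩
  · intro f g
    refine tendsto_nhds_unique (hf (f + g)) (((hf f).add (hf g)).congr' ?_)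
    exact hev.mono fun b hb => ((hlam b hb).1.1 f g).symm
  · intro c f
    refine tendsto_nhds_unique (hf (c • f)) (((hf f).const_mul c).congr' ?_)
    exact hev.mono fun b hb => ((hlam b hb).1.2.1 c f).symm
  · intro f h0
    exact ge_of_tendsto (hf f) (hev.mono fun b hb => (hlam b hb).1.2.2 f h0)
  · intro f h0
    exact le_of_tendsto (hf f) (hev.mono fun b hb => (hlam b hb).2.1 f h0)
  · intro f g h0 hg
    let F : C(G × G, ℝ) := ⟨fun p => f (mul p.1 p.2), f.continuous.comp hmul⟩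
    have hcur : Continuous (fun b => F.curry b) := F.curry.continuous
    have hνc : Continuous (fun u : C(G, ℝ) => ν u) := by
      refine LipschitzWith.continuous (K := 1) (LipschitzWith.of_dist_le_mul fun u v => ?_)
      rw [Real.dist_eq, dist_eq_norm, ← Ps_sub hνP]
      have := Ps_bound hνP (le_of_eq hν1) (u - v)
      simpa using abs_le.2 this
    have hga : F.curry a = g := by
      ext z
      rw [hg z]
      rfl
    have ht : Tendsto (fun b => ν (F.curry b)) U (𝓝 (ν g)) := by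
      have h1 : Tendsto (fun b => ν (F.curry b)) (𝓝 a) (𝓝 (ν (F.curry a))) :=
        (hνc.comp hcur).tendsto a
      rw [hga] at h1
      exact h1.mono_left hUa
    refine le_of_tendsto_of_tendsto (hf f) ht (hev.mono fun b hb => ?_)
    exact (hlam b hb).2.2.1 f (F.curry b) h0 (fun z => rfl)
  · exact ge_of_tendsto (hf 1) (hev.mono fun b hb => (hlam b hb).2.2.2)

end Pool.Agent.H100R2.MH
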