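import Pool.Agent.H100R2.MH.Stubs2

set_option autoImplicit false

namespace Pool.Agent.H100R2.MH

open Topology Filter Set
open Pool.Agent.Helper974.Moufang (kk FF IsMoufang FF_cont kk_kk kk_kei)

universe u

theorem t35 (h18 : T18.{u}) (h20 : T20.{u}) (h21 : T21.{u}) (h22 : T22.{u}) (h32 : T32.{u})
    (h33 : T33.{u}) (h34 : T34.{u}) : T35.{u} := by
  intro G _ _ _ mul ldiv rdiv e h hm hl hr ν hν hgen
  have hanti : ∀ ε ε' : ℝ, ε' ≤ ε → NS mul ν ε ⊆ NS mul ν ε' := by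
    rintro ε ε' hε a ⟨lam, h1, h2, h3, h4⟩
    exact ⟨lam, h1, h2, h3, hε.trans h4⟩
  obtain ⟨N, F, m, heF, hPW⟩ := h22 G mul ldiv rdiv e h hm hl hr
    (fun j => NS mul ν (1 / ((j : ℝ) + 1))) (fun j => h34 G mul hm ν hν _) (by
    intro A heA hA hmul
    apply hgen A heA _ hmul
    intro ε hε
    obtain ⟨j, hj⟩ := exists_nat_one_div_lt hε
    exact (hanti _ _ hj.le).trans (hA j))
  let S : Fin N ⊕ F → Set G := Sum.elim (fun j : Fin N => NS mul ν (1 / ((j.val : ℝ) + 1)))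
    (fun x : F => ({x.val} : Set G))
  have hfam : ∀ k : Fin N ⊕ F, ∃ (p : XX (Fin 3 × G)) (ε : ℝ), p ∈ St (Fin 3 × G) ∧ 0 < ε ∧
      ∀ (i : Fin 3), ∀ x ∈ S k, (loopKei h hm hl).Good p ε (i, x) := by
    rintro (j | ⟨x, hx⟩)
    · obtain ⟨p, hp, hg⟩ := h33 G mul ldiv rdiv e h hm hl ν hν
      exact ⟨p, (1 / ((j.val : ℝ) + 1)) / 6, hp, by positivity, fun i x hx => hg _ i x hx⟩
    · obtain ⟨μ, hμ, hinv⟩ := h21 G mul ldiv rdiv e h hm hl x
      obtain ⟨p, hp, hg⟩ := h33 G mul ldiv rdiv e h hm hl μ hμ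
      refine ⟨p, 1 / 6, hp, by norm_num, ?_⟩
      intro i y hy
      have hy' : y = x := hy
      subst hy'
      apply hg 1 i y
      refine ⟨μ, ⟨hμ.1, hμ.2.1, hμ.2.2.2⟩, fun f _ => le_rfl, fun f g _ hfg => ?_, ?_⟩
      · exact ((hinv y rfl).1 f g hfg).ge
      · rw [hμ.2.2.1]
  choose p ε hp hε hgood using hfam
  let eq := (Fintype.equivFin (Fin N ⊕ F)).symm
  have hU : (⋃ k, {z : Fin 3 × G | z.2 ∈ S (eq k)}) =
      {z : Fin 3 × G | z.2 ∈ (⋃ j ∈ Finset.range N, NS mul ν (1 / ((j : ℝ) + 1))) ∪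
        (F : Set G)} := by
    ext z
    simp only [mem_iUnion, mem_setOf_eq, mem_union]
    constructor
    · rintro ⟨k, hk⟩
      rcases hs : eq k with j | x
      · rw [hs] at hk
        left
        exact ⟨j.val, Finset.mem_range.mpr j.isLt, hk⟩
      · rw [hs] at hk
        right
        have hk' : z.2 = x.val := hk
        rw [hk']
        exact x.prop
    · rintro (⟨j, hj, hz⟩ | hz)
      · refine ⟨eq.symm (Sum.inl ⟨j, Finset.mem_range.mp hj⟩), ?_⟩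
        rw [Equiv.apply_symm_apply]
        exact hz
      · refine ⟨eq.symm (Sum.inr ⟨z.2, hz⟩), ?_⟩
        rw [Equiv.apply_symm_apply]
        rfl
  have hW : (loopKei h hm hl).W (⋃ k, {z : Fin 3 × G | z.2 ∈ S (eq k)}) (2 * m) = univ := by
    rw [hU]
    have h1 := h20 G mul ldiv rdiv e h hm hl
      ((⋃ j ∈ Finset.range N, NS mul ν (1 / ((j : ℝ) + 1))) ∪ (F : Set G)) (Or.inr heF) m
    rw [hPW] at h1
    exact eq_univ_of_univ_subset (fun z _ => h1 (mem_univ z.2))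
  obtain ⟨y, hy1, hy2, hy3⟩ := h32 (Fin 3 × G) (loopKei h hm hl) _
    (fun k => {z | z.2 ∈ S (eq k)}) (fun k => p (eq k)) (fun k => ε (eq k))
    (fun k => hp _) (fun k => hε _) (fun k x hx => hgood (eq k) x.1 x.2 hx) (2 * m) hW
  exact h18 G mul ldiv rdiv e h hm hl ⟨y, hy1, hy2, hy3⟩

end Pool.Agent.H100R2.MH
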