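import Mathlib
import Pool.Agent.H100R2.MH.Stubs2

set_option autoImplicit false

/-! task T36: transfer of the criterion to a closed subloop -/

namespace Pool.Agent.H100R2.MH

open Topology Filter Set
open Pool.Agent.Helper974.Moufang (kk FF IsMoufang FF_cont kk_kk kk_kei)

universe u

namespace T36aux

variable {L : Type u} {mul ldiv rdiv : L → L → L} {e : L}

theorem ldiv_eq (h : IsMoufang mul ldiv rdiv e) (x y : L) : ldiv x y = mul (ldiv x e) y :=
  h.lcan (x := x) (by rw [h.mul_ldiv, h.lip'])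

theorem rdiv_eq (h : IsMoufang mul ldiv rdiv e) (x y : L) : rdiv y x = mul y (ldiv x e) :=
  h.rcan (x := x) (by rw [h.rdiv_mul, h.rip'])

/-- a linear map from a state -/
def toLin {X : Type u} [TopologicalSpace X] (p : XX X) (hp : p ∈ St X) : C(X, ℝ) →ₗ[ℝ] ℝ where
  toFun := p
  map_add' := hp.1
  map_smul' := fun c f => hp.2.1 c f

end T36aux

open T36aux

theorem t36 (h35 : T35.{u}) : T36.{u} := by
  intro L _ _ _ mul ldiv rdiv e h hm hl hr H hH hN
  have hld : ∀ x ∈ H, ∀ y ∈ H, ldiv x y ∈ H := fun x hx y hy => by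
    rw [ldiv_eq h]; exact hH.mul_mem _ (hH.inv_mem x hx) _ hy
  have hrd : ∀ x ∈ H, ∀ y ∈ H, rdiv y x ∈ H := fun x hx y hy => by
    rw [rdiv_eq h]; exact hH.mul_mem _ hy _ (hH.inv_mem x hx)
  haveI : CompactSpace H := isCompact_iff_compactSpace.1 hH.closed.isCompact
  let mul' : H → H → H := fun x y => ⟨mul x y, hH.mul_mem x x.2 y y.2⟩
  let ldiv' : H → H → H := fun x y => ⟨ldiv x y, hld x x.2 y y.2⟩
  let rdiv' : H → H → H := fun y x => ⟨rdiv y x, hrd x x.2 y y.2⟩
  let e' : H := ⟨e, hH.one_mem⟩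
  have h' : IsMoufang mul' ldiv' rdiv' e' :=
    { one_mul := fun x => Subtype.ext (h.one_mul x)
      mul_one := fun x => Subtype.ext (h.mul_one x)
      mul_ldiv := fun x y => Subtype.ext (h.mul_ldiv x y)
      ldiv_mul := fun x y => Subtype.ext (h.ldiv_mul x y)
      rdiv_mul := fun x y => Subtype.ext (h.rdiv_mul x y)
      mul_rdiv := fun x y => Subtype.ext (h.mul_rdiv x y)
      moufang := fun x y z => Subtype.ext (h.moufang x y z) }
  have hpair : Continuous (fun p : H × H => ((p.1 : L), (p.2 : L))) :=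
    (continuous_subtype_val.comp continuous_fst).prodMk (continuous_subtype_val.comp continuous_snd)
  have hm' : Continuous (fun p : H × H => mul' p.1 p.2) := (hm.comp hpair).subtype_mk _
  have hl' : Continuous (fun p : H × H => ldiv' p.1 p.2) := (hl.comp hpair).subtype_mk _
  have hr' : Continuous (fun p : H × H => rdiv' p.1 p.2) := (hr.comp hpair).subtype_mk _
  obtain ⟨ν, hν1, hν2, hgen⟩ := hN
  have hνS : ((fun f => ν f) : XX H) ∈ St H :=
    ⟨fun f g => ν.map_add f g, fun c f => ν.map_smul c f, hν1, hν2⟩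
  have hgen' : ∀ A : Set H, e' ∈ A → (∀ ε, 0 < ε → NS mul' ((fun f => ν f) : XX H) ε ⊆ A) →
      (∀ x ∈ A, ∀ y ∈ A, mul' x y ∈ A) → A = univ := by
    intro A h1 h2 h3
    have key := hgen (Subtype.val '' A) ⟨e', h1, rfl⟩
      (by
        rintro _ ⟨x, hx, rfl⟩ _ ⟨y, hy, rfl⟩
        exact ⟨mul' x y, h3 x hx y hy, rfl⟩)
      (by
        rintro k ⟨lam, hl1, hl2, hl3, hl4⟩
        refine ⟨k, h2 (lam 1) hl1 ⟨fun f => lam f, ⟨fun f g => lam.map_add f g,
          fun c f => lam.map_smul c f, hl2⟩, hl3, ?_, le_rfl⟩, rfl⟩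
        intro f g hf hfg
        refine hl4 f g hf (fun y z hyz => ?_)
        rw [hfg y]
        congr 1
        exact Subtype.ext hyz.symm)
    refine eq_univ_of_forall (fun x => ?_)
    obtain ⟨y, hy, hyx⟩ := key x.2
    rwa [← Subtype.ext hyx]
  obtain ⟨p, hp, hinv⟩ := h35 H mul' ldiv' rdiv' e' h' hm' hl' hr' _ hνS hgen'
  refine ⟨toLin p hp, hp.2.2.1, hp.2.2.2, fun k f g hfg => ?_, fun k f g hfg => ?_⟩
  · exact (hinv k (mem_univ _)).1 f g (fun x => hfg x (mul' k x) rfl)
  · exact (hinv k (mem_univ _)).2 f g (fun x => hfg x (mul' x k) rfl)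

end Pool.Agent.H100R2.MH
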