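import Mathlib
import Pool.Agent.H100R2.MH.Stubs

set_option autoImplicit false

/-! T14: absorption of finitely many states (helper940). -/

namespace Pool.Agent.H100R2.MH

open Topology Filter Set

universe u

theorem t14 (h01 : T01.{u}) (h04 : T04.{u}) (h05 : T05.{u}) (h06 : T06.{u}) (h07 : T07.{u})
    (h08 : T08.{u}) (h09 : T09.{u}) : T14.{u} := by
  intro D _ _ _ K Q hQ y hy n p hp
  have hyQ : y ∈ Q := hy.1
  have hySt : y ∈ St D := hQ.1.sub hyQ
  obtain ⟨𝒰, hU1, hU2⟩ := h09 D K Q hQ y hy n (fun j => K.BB (p j) y)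
    (fun j => h07 D K Q hQ.1 (p j) (hp j) y hyQ)
  refine ⟨𝒰, fun j => ?_⟩
  have hmem : ∀ l : List D, push (K.act l) (p j) ∈ St D := fun l => (h04 D K).1 _ _ (hp j)
  have hle : ((𝒰.map (fun l => push (K.act l) (p j)) : Ultrafilter (XX D)) : Filter (XX D)) ≤
      𝓟 (St D) := by
    rw [Filter.le_principal_iff, Ultrafilter.coe_map, Filter.mem_map]
    exact Filter.univ_mem' hmem
  obtain ⟨ps, hps, hlim⟩ := (h01 D).1.ultrafilter_le_nhds _ hle
  have hlim' : Tendsto (fun l => push (K.act l) (p j)) 𝒰 (𝓝 ps) := by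
    rw [Ultrafilter.coe_map] at hlim
    exact hlim
  refine ⟨ps, hps, hlim', ?_⟩
  have h1 : Tendsto (fun l => K.BB (push (K.act l) (p j)) (push (K.act l) y))
      (𝒰 : Filter (List D)) (𝓝 (K.BB ps y)) :=
    (h06 D K (List D) (𝒰 : Filter (List D)) (fun l => push (K.act l) y) y
      (fun l => (h04 D K).1 _ _ hySt) hySt hU1).1 (fun l => push (K.act l) (p j)) ps hmem hps hlim'
  have h2 : (fun l => K.BB (push (K.act l) (p j)) (push (K.act l) y)) =
      fun l => push (K.act l) (K.BB (p j) y) := by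
    funext l
    exact ((h05 D K).2.2.2.2 l (p j) (hp j) y hySt).symm
  rw [h2] at h1
  have h3 : K.BB ps y = y := tendsto_nhds_unique h1 (hU2 j)
  exact h08 D K Q hQ.1 y hy ps hps h3

end Pool.Agent.H100R2.MH
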