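import Mathlib
import Pool.Agent.H100R2.MH.Stubs

set_option autoImplicit false

namespace Pool.Agent.H100R2.MH

open Topology Filter Set

universe u

/-- the selection lemma -/
theorem t15 (h04 : T04.{u}) (h06 : T06.{u}) (h11 : T11.{u}) : T15.{u} := by
  intro D _ _ _ K S E p ps 𝒰 hS hp hps hp3 hE hlim hsupp x w hx hw
  obtain ⟨h1, -, -, -, -, -, -, h8, h9⟩ := h04 D K
  have hst : ∀ l : List D, push (K.act l) p ∈ St D := fun l => h1 _ p hp
  have hA : Tendsto (fun l : List D => push (K.rc (K.act l (x l))) (push (K.act l) p)) 𝒰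
      (𝓝 (push (K.rc w) ps)) :=
    (h06 D K (List D) (𝒰 : Filter (List D)) (fun l => push (K.act l) p) ps hst hps hlim).2
      (fun l => K.act l (x l)) w hw
  have hB : (fun l : List D => push (K.rc (K.act l (x l))) (push (K.act l) p)) =ᶠ[(𝒰 : Filter (List D))]
      (fun l => push (K.act l) p) := by
    filter_upwards [hx] with l hl
    rw [← h8 l (x l) p, hE (x l) hl]
  have hfix : push (K.rc w) ps = ps := tendsto_nhds_unique (hA.congr' hB) hlim
  have h3 : ∀ i, ps (K.ind i) = 1 / 3 := by
    intro i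
    have hc : Tendsto (fun l : List D => push (K.act l) p (K.ind i)) 𝒰 (𝓝 (ps (K.ind i))) :=
      (tendsto_pi_nhds.1 hlim) (K.ind i)
    have hc' : Tendsto (fun l : List D => push (K.act l) p (K.ind i)) 𝒰 (𝓝 (1 / 3)) := by
      have : (fun l : List D => push (K.act l) p (K.ind i)) = fun _ => (1 / 3 : ℝ) := by
        funext l
        exact h9 l p hp hp3 i
      rw [this]
      exact tendsto_const_nhds
    exact tendsto_nhds_unique hc hc'
  obtain ⟨hz, hr⟩ := h11 D K ps hps
  obtain ⟨z, hzs, hzt⟩ := hz h3 (K.t w + 1)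
  have hne : K.t w ≠ K.t z := by
    rw [hzt]
    generalize K.t w = a
    revert a
    decide
  have hrz : K.r w z ∈ S := hsupp (hr w hfix z hzs)
  have hfin : K.r z (K.r w z) ∈ S := hS z (hsupp hzs) _ hrz
  rw [K.comm w z hne, K.inv z w] at hfin
  exact hfin

end Pool.Agent.H100R2.MH
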