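import Mathlib
import Pool.Agent.H100R2.MH.Stubs

set_option autoImplicit false

/-!
# T19: from the loop to the kei (helper908)
-/

namespace Pool.Agent.H100R2.MH

open Topology Filter Set
open Pool.Agent.Helper974.Moufang (kk FF IsMoufang FF_cont kk_kk kk_kei)

universe u

namespace T19aux

variable {G : Type u} [TopologicalSpace G]

/-- the section at a colour -/
def sec (j : Fin 3) (F : C(Fin 3 × G, ℝ)) : C(G, ℝ) :=
  F.comp ⟨fun x => (j, x), continuous_const.prodMk continuous_id⟩

theorem sec_apply (j : Fin 3) (F : C(Fin 3 × G, ℝ)) (x : G) : sec j F x = F (j, x) := rfl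

end T19aux

open T19aux in
theorem t19 : T19.{u} := by
  intro G _ _ _ mul ldiv rdiv e h hm hl E hE
  obtain ⟨μ, ⟨hadd, hsmul, hone, hpos⟩, hμ⟩ := hE
  have hic : Continuous (fun x : G => ldiv x e) := hl.comp (continuous_id.prodMk continuous_const)
  let iv : C(G, G) := ⟨fun x => ldiv x e, hic⟩
  let L : G → C(G, G) := fun a => ⟨fun x => mul a x, hm.comp (continuous_const.prodMk continuous_id)⟩
  let R : G → C(G, G) := fun a => ⟨fun x => mul x a, hm.comp (continuous_id.prodMk continuous_const)⟩
  have hLa : ∀ a x, L a x = mul a x := fun _ _ => rfl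
  have hRa : ∀ a x, R a x = mul x a := fun _ _ => rfl
  have hiva : ∀ x, iv x = ldiv x e := fun _ => rfl
  -- the symmetrised state
  let ν : XX G := fun f => (μ f + μ (f.comp iv)) / 2
  have hνdef : ∀ f, ν f = (μ f + μ (f.comp iv)) / 2 := fun _ => rfl
  have hνadd : ∀ f g, ν (f + g) = ν f + ν g := by
    intro f g
    have h1 : (f + g).comp iv = f.comp iv + g.comp iv := rfl
    rw [hνdef, hνdef, hνdef, h1, hadd, hadd]
    ring
  have hνsmul : ∀ (c : ℝ) f, ν (c • f) = c * ν f := by
    intro c f
    have h1 : (c • f).comp iv = c • f.comp iv := rfl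
    rw [hνdef, hνdef, h1, hsmul, hsmul]
    ring
  have hνone : ν 1 = 1 := by
    have h1 : (1 : C(G, ℝ)).comp iv = 1 := rfl
    rw [hνdef, h1, hone]
    norm_num
  have hνpos : ∀ f : C(G, ℝ), (∀ x, 0 ≤ f x) → 0 ≤ ν f := by
    intro f hf
    have h1 := hpos f hf
    have h2 := hpos (f.comp iv) (fun x => hf _)
    rw [hνdef]
    linarith
  have hνzero : ν 0 = 0 := by
    have := hνsmul 0 0
    rwa [zero_smul, zero_mul] at this
  have hνinv : ∀ f : C(G, ℝ), ν (f.comp iv) = ν f := by
    intro f
    have h1 : (f.comp iv).comp iv = f := by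
      ext x
      change f (ldiv (ldiv x e) e) = f x
      rw [h.inv_inv]
    rw [hνdef, hνdef, h1, add_comm]
  have hνL : ∀ a ∈ E, ∀ f : C(G, ℝ), ν (f.comp (L a)) = ν f := by
    intro a ha f
    have h1 : μ (f.comp (L a)) = μ f := (hμ a ha).1 f _ (fun x => rfl)
    have h2 : μ (f.comp iv) = μ ((f.comp (L a)).comp iv) := by
      refine (hμ a ha).2 _ _ (fun z => ?_)
      change f (ldiv z e) = f (mul a (ldiv (mul z a) e))
      rw [h.inv_mul_rev, h.lip']
    rw [hνdef, hνdef, h1, ← h2]
  have hνR : ∀ a ∈ E, ∀ f : C(G, ℝ), ν (f.comp (R a)) = ν f := by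
    intro a ha f
    have h1 : μ (f.comp (R a)) = μ f := (hμ a ha).2 f _ (fun x => rfl)
    have h2 : μ (f.comp iv) = μ ((f.comp (R a)).comp iv) := by
      refine (hμ a ha).1 _ _ (fun z => ?_)
      change f (ldiv z e) = f (mul (ldiv (mul a z) e) a)
      rw [h.inv_mul_rev, h.rip']
    rw [hνdef, hνdef, h1, ← h2]
  -- invariance under the maps `FF i j a`
  have hFF : ∀ a ∈ E, ∀ (i j : Fin 3) (H H' : C(G, ℝ)), (∀ x, H' x = H (FF mul ldiv e i j a x)) →
      ν H' = ν H := by
    intro a ha i j H H' hH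
    by_cases h1 : j = i
    · have h2 : H' = ((H.comp (L a)).comp (R a)).comp iv := by
        ext x
        rw [hH]
        unfold FF
        rw [if_pos h1]
        rfl
      rw [h2, hνinv, hνR a ha, hνL a ha]
    · by_cases h3 : j = i + 1
      · have h2 : H' = (H.comp iv).comp (L a) := by
          ext x
          rw [hH]
          unfold FF
          rw [if_neg h1, if_pos h3]
          rfl
        rw [h2, hνL a ha, hνinv]
      · have h2 : H' = (H.comp iv).comp (R a) := by
          ext x
          rw [hH]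
          unfold FF
          rw [if_neg h1, if_neg h3]
          rfl
        rw [h2, hνR a ha, hνinv]
  refine ⟨fun F => (1 / 3) * ∑ j : Fin 3, ν (sec j F), ⟨?_, ?_, ?_, ?_⟩, ?_, ?_⟩
  · intro F F'
    have h1 : ∀ j, sec j (F + F') = sec j F + sec j F' := fun j => rfl
    change (1 / 3) * ∑ j : Fin 3, ν (sec j (F + F')) = (1 / 3) * ∑ j : Fin 3, ν (sec j F) +
      (1 / 3) * ∑ j : Fin 3, ν (sec j F')
    simp only [h1, hνadd, Finset.sum_add_distrib]
    ring
  · intro c F
    have h1 : ∀ j, sec j (c • F) = c • sec j F := fun j => rfl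
    change (1 / 3) * ∑ j : Fin 3, ν (sec j (c • F)) = c * ((1 / 3) * ∑ j : Fin 3, ν (sec j F))
    simp only [h1, hνsmul, ← Finset.mul_sum]
    ring
  · change (1 / 3) * ∑ j : Fin 3, ν (sec j 1) = 1
    have h1 : ∀ j : Fin 3, sec j (1 : C(Fin 3 × G, ℝ)) = 1 := fun j => rfl
    simp only [h1, hνone]
    simp
  · intro F hF
    exact mul_nonneg (by norm_num) (Finset.sum_nonneg fun j _ => hνpos _ fun x => hF _)
  · intro i
    change (1 / 3) * ∑ j : Fin 3, ν (sec j ((loopKei h hm hl).ind i)) = 1 / 3
    have h1 : ∀ j : Fin 3, ν (sec j ((loopKei h hm hl).ind i)) = if j = i then 1 else 0 := by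
      intro j
      by_cases hj : j = i
      · rw [if_pos hj]
        have : sec j ((loopKei h hm hl).ind i) = 1 := by
          ext x
          change (if j = i then (1 : ℝ) else 0) = 1
          rw [if_pos hj]
        rw [this, hνone]
      · rw [if_neg hj]
        have : sec j ((loopKei h hm hl).ind i) = 0 := by
          ext x
          change (if j = i then (1 : ℝ) else 0) = 0
          rw [if_neg hj]
        rw [this, hνzero]
    simp only [h1]
    simp
  · intro i a ha
    funext F
    rw [push_apply]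
    change (1 / 3) * ∑ j : Fin 3, ν (sec j (F.comp ((loopKei h hm hl).rc (i, a)))) =
      (1 / 3) * ∑ j : Fin 3, ν (sec j F)
    have h1 : ∀ j : Fin 3, ν (sec j (F.comp ((loopKei h hm hl).rc (i, a)))) = ν (sec (kk i j) F) :=
      fun j => hFF a ha i j _ _ (fun x => rfl)
    simp only [h1]
    congr 1
    let σ : Fin 3 ≃ Fin 3 := ⟨kk i, kk i, kk_kk i, kk_kk i⟩
    exact Equiv.sum_comp σ (fun j => ν (sec j F))

end Pool.Agent.H100R2.MH
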