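import Pool.Agent.H100R2.MH.Stubs

set_option autoImplicit false

namespace Pool.Agent.H100R2.MH

open Topology Filter Set
open Pool.Agent.Helper974.Moufang (kk FF IsMoufang FF_cont kk_kk kk_kei)

universe u

theorem t23 (h17 : T17.{u}) (h18 : T18.{u}) (h19 : T19.{u}) (h20 : T20.{u}) (h21 : T21.{u})
    (h22 : T22.{u}) : T23.{u} := by
  classical
  intro G _ _ _ mul ldiv rdiv e hM hm hl hr E hEc hEA hgen
  obtain ⟨N, F, m, heF, hPW⟩ := h22 G mul ldiv rdiv e hM hm hl hr E hEc hgen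
  set E' : Set G := (⋃ j ∈ Finset.range N, E j) ∪ (F : Set G) with hE'
  -- the finite family
  let ι := Fin N ⊕ {x // x ∈ F}
  let Ek : ι → Set G := Sum.elim (fun j => E j) (fun x => {x.1})
  have hA : ∀ k : ι, AmenOn mul (Ek k) := by
    rintro (j | x)
    · exact hEA j
    · exact h21 G mul ldiv rdiv e hM hm hl x.1
  have hp : ∀ k : ι, ∃ p ∈ St (Fin 3 × G), (∀ i, p ((loopKei hM hm hl).ind i) = 1 / 3) ∧
      ∀ (i : Fin 3), ∀ x ∈ Ek k, push ((loopKei hM hm hl).rc (i, x)) p = p :=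
    fun k => h19 G mul ldiv rdiv e hM hm hl (Ek k) (hA k)
  choose p hp1 hp2 hp3 using hp
  let eqv : ι ≃ Fin (Fintype.card ι) := Fintype.equivFin ι
  have hU : (⋃ j : Fin (Fintype.card ι), {z : Fin 3 × G | z.2 ∈ Ek (eqv.symm j)}) =
      {z : Fin 3 × G | z.2 ∈ E'} := by
    ext z
    rw [Set.mem_iUnion]
    constructor
    · rintro ⟨j, hj⟩
      have hj' : z.2 ∈ Ek (eqv.symm j) := hj
      show z.2 ∈ E'
      rcases hk : eqv.symm j with a | x
      · rw [hk] at hj'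
        refine Or.inl ?_
        rw [Set.mem_iUnion₂]
        exact ⟨a, Finset.mem_range.mpr a.2, hj'⟩
      · rw [hk] at hj'
        refine Or.inr ?_
        have h1 : z.2 = x.1 := hj'
        rw [h1]
        exact x.2
    · intro hz
      have hz' : z.2 ∈ E' := hz
      rcases hz' with h | h
      · rw [Set.mem_iUnion₂] at h
        obtain ⟨a, ha, h⟩ := h
        refine ⟨eqv (Sum.inl ⟨a, Finset.mem_range.mp ha⟩), ?_⟩
        show z.2 ∈ Ek (eqv.symm (eqv _))
        rw [Equiv.symm_apply_apply]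
        exact h
      · refine ⟨eqv (Sum.inr ⟨z.2, h⟩), ?_⟩
        show z.2 ∈ Ek (eqv.symm (eqv _))
        rw [Equiv.symm_apply_apply]
        exact rfl
  have hW : (loopKei hM hm hl).W (⋃ j : Fin (Fintype.card ι),
      {z : Fin 3 × G | z.2 ∈ Ek (eqv.symm j)}) (2 * m) = univ := by
    rw [hU, Set.eq_univ_iff_forall]
    intro z
    refine h20 G mul ldiv rdiv e hM hm hl E' (Or.inr heF) m ?_
    show z.2 ∈ PW mul E' m
    rw [hPW]
    exact Set.mem_univ _
  obtain ⟨y, hy1, hy2, hy3⟩ := h17 (Fin 3 × G) (loopKei hM hm hl) (Fintype.card ι)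
    (fun j => {z : Fin 3 × G | z.2 ∈ Ek (eqv.symm j)}) (fun j => p (eqv.symm j))
    (fun j => hp1 _) (fun j i => hp2 _ i) (fun j z hz => hp3 _ z.1 z.2 hz) (2 * m) hW
  exact h18 G mul ldiv rdiv e hM hm hl ⟨y, hy1, hy2, hy3⟩

end Pool.Agent.H100R2.MH
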