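import Mathlib
import Pool.Agent.H100R2.MH.Stubs

set_option autoImplicit false

/-! task T24: transfer to a closed subloop -/

namespace Pool.Agent.H100R2.MH

open Topology Filter Set
open Pool.Agent.Helper974.Moufang (kk FF IsMoufang FF_cont kk_kk kk_kei)

universe u

namespace T24aux

variable {L : Type u} {mul ldiv rdiv : L → L → L} {e : L}

theorem ldiv_eq (h : IsMoufang mul ldiv rdiv e) (x y : L) : ldiv x y = mul (ldiv x e) y :=
  h.lcan (x := x) (by rw [h.mul_ldiv, h.lip'])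

theorem rdiv_eq (h : IsMoufang mul ldiv rdiv e) (x y : L) : rdiv y x = mul y (ldiv x e) :=
  h.rcan (x := x) (by rw [h.rdiv_mul, h.rip'])

/-- a linear map from a state -/
def toLin {X : Type u} [TopologicalSpace X] (p : XX X) (hp : p ∈ St X) : C(X, ℝ) →ₗ[ℝ] ℝ where
  toFun := p
  map_add' := hp.1
  map_smul' := fun c f => hp.2.1 c f

end T24aux

open T24aux

theorem t24 (h23 : T23.{u}) : T24.{u} := by
  intro L _ _ _ mul ldiv rdiv e h hm hl hr H hH E hE hgen
  have hmem : ∀ x : H, (x : L) ∈ H := fun x => x.2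
  have hld : ∀ x ∈ H, ∀ y ∈ H, ldiv x y ∈ H := fun x hx y hy => by
    rw [ldiv_eq h]; exact hH.mul_mem _ (hH.inv_mem x hx) _ hy
  have hrd : ∀ x ∈ H, ∀ y ∈ H, rdiv y x ∈ H := fun x hx y hy => by
    rw [rdiv_eq h]; exact hH.mul_mem _ hy _ (hH.inv_mem x hx)
  haveI : CompactSpace H := isCompact_iff_compactSpace.1 hH.closed.isCompact
  let mul' : H → H → H := fun x y => ⟨mul x y, hH.mul_mem x x.2 y y.2⟩
  let ldiv' : H → H → H := fun x y => ⟨ldiv x y, hld x x.2 y y.2⟩
  let rdiv' : H → H → H := fun y x => ⟨rdiv y x, hrd x x.2 y y.2⟩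
  let e' : H := ⟨e, hH.one_mem⟩
  have h' : IsMoufang mul' ldiv' rdiv' e' :=
    { one_mul := fun x => Subtype.ext (h.one_mul x)
      mul_one := fun x => Subtype.ext (h.mul_one x)
      mul_ldiv := fun x y => Subtype.ext (h.mul_ldiv x y)
      ldiv_mul := fun x y => Subtype.ext (h.ldiv_mul x y)
      rdiv_mul := fun x y => Subtype.ext (h.rdiv_mul x y)
      mul_rdiv := fun x y => Subtype.ext (h.mul_rdiv x y)
      moufang := fun x y z => Subtype.ext (h.moufang x y z) }
  have hpair : Continuous (fun p : H × H => ((p.1 : L), (p.2 : L))) :=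
    (continuous_subtype_val.comp continuous_fst).prodMk (continuous_subtype_val.comp continuous_snd)
  have hm' : Continuous (fun p : H × H => mul' p.1 p.2) := (hm.comp hpair).subtype_mk _
  have hl' : Continuous (fun p : H × H => ldiv' p.1 p.2) := (hl.comp hpair).subtype_mk _
  have hr' : Continuous (fun p : H × H => rdiv' p.1 p.2) := (hr.comp hpair).subtype_mk _
  let E' : ℕ → Set H := fun j => Subtype.val ⁻¹' (E j)
  have hE'c : ∀ j, IsClosed (E' j) := fun j => (hE j).1.preimage continuous_subtype_val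
  have hE'a : ∀ j, AmenOn mul' (E' j) := by
    intro j
    obtain ⟨hc, hs, hmj, I, hI1, hI2, hI3, hI4⟩ := hE j
    let ι : C(E j, H) := ⟨fun x => ⟨x, hs x.2⟩, continuous_subtype_val.subtype_mk _⟩
    refine ⟨fun f => I (f.comp ι), ⟨fun f g => ?_, fun c f => ?_, ?_, fun f hf => ?_⟩, fun a ha => ⟨?_, ?_⟩⟩
    · exact I.map_add (f.comp ι) (g.comp ι)
    · exact I.map_smul c (f.comp ι)
    · exact hI1
    · exact hI2 _ (fun x => hf _)
    · intro f g hfg
      refine hI3 ⟨a, ha⟩ (f.comp ι) (g.comp ι) (fun y z hyz => ?_)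
      change g (ι y) = f (ι z)
      rw [hfg]
      congr 1
      exact Subtype.ext hyz.symm
    · intro f g hfg
      refine hI4 ⟨a, ha⟩ (f.comp ι) (g.comp ι) (fun y z hyz => ?_)
      change g (ι y) = f (ι z)
      rw [hfg]
      congr 1
      exact Subtype.ext hyz.symm
  have hgen' : ∀ A : Set H, e' ∈ A → (∀ j, E' j ⊆ A) → (∀ x ∈ A, ∀ y ∈ A, mul' x y ∈ A) →
      A = univ := by
    intro A h1 h2 h3
    have := hgen (Subtype.val '' A) ⟨e', h1, rfl⟩
      (fun j x hx => ⟨⟨x, (hE j).2.1 hx⟩, h2 j hx, rfl⟩)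
      (by
        rintro _ ⟨x, hx, rfl⟩ _ ⟨y, hy, rfl⟩
        exact ⟨mul' x y, h3 x hx y hy, rfl⟩)
    refine eq_univ_of_forall (fun x => ?_)
    obtain ⟨y, hy, hyx⟩ := this x.2
    rwa [← Subtype.ext hyx]
  obtain ⟨p, hp, hinv⟩ := h23 H mul' ldiv' rdiv' e' h' hm' hl' hr' E' hE'c hE'a hgen'
  refine ⟨toLin p hp, hp.2.2.1, hp.2.2.2, fun k f g hfg => ?_, fun k f g hfg => ?_⟩
  · exact (hinv k (mem_univ _)).1 f g (fun x => hfg x (mul' k x) rfl)
  · exact (hinv k (mem_univ _)).2 f g (fun x => hfg x (mul' x k) rfl)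

end Pool.Agent.H100R2.MH
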