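import Mathlib
import Pool.Agent.H100R2.MH.Stubs

set_option autoImplicit false

/-!
# T25: directed unions and closures (helper908)
-/

namespace Pool.Agent.H100R2.MH

open Topology Filter Set
open Pool.Agent.Helper974.Moufang (kk FF IsMoufang FF_cont kk_kk kk_kei)

universe u

theorem t25 (h01 : T01.{u}) : T25.{u} := by
  intro L _ _ _ mul hm K 𝒢 hK hKm h𝒢 hdir hH hcl
  haveI : CompactSpace K := isCompact_iff_compactSpace.mp hK.isCompact
  obtain ⟨hStc, _, hbd, _⟩ := h01 K
  -- the products inside `K`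
  let mK : K → K → K := fun x y => ⟨mul x y, hKm x x.2 y y.2⟩
  have hmK : Continuous (fun p : K × K => mK p.1 p.2) :=
    (hm.comp ((continuous_subtype_val.comp continuous_fst).prodMk
      (continuous_subtype_val.comp continuous_snd))).subtype_mk _
  let A : Set L → Set (XX K) := fun H => {p | p ∈ St K ∧ ∀ x : K, (x : L) ∈ H →
    (∀ f g : C(K, ℝ), (∀ y, g y = f (mK x y)) → p g = p f) ∧
    (∀ f g : C(K, ℝ), (∀ y, g y = f (mK y x)) → p g = p f)}
  have hAcl : ∀ H, IsClosed (A H) := by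
    intro H
    have h1 : A H = St K ∩ ⋂ (x : K), ⋂ (_ : (x : L) ∈ H), ((⋂ (f : C(K, ℝ)), ⋂ (g : C(K, ℝ)),
        ⋂ (_ : ∀ y, g y = f (mK x y)), {p : XX K | p g = p f}) ∩
        (⋂ (f : C(K, ℝ)), ⋂ (g : C(K, ℝ)),
        ⋂ (_ : ∀ y, g y = f (mK y x)), {p : XX K | p g = p f})) := by
      ext p
      simp only [A, mem_setOf_eq, mem_inter_iff, mem_iInter]
    rw [h1]
    refine hStc.isClosed.inter ?_
    refine isClosed_iInter fun x => isClosed_iInter fun _ => IsClosed.inter ?_ ?_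
    · exact isClosed_iInter fun f => isClosed_iInter fun g => isClosed_iInter fun _ =>
        isClosed_eq (continuous_apply g) (continuous_apply f)
    · exact isClosed_iInter fun f => isClosed_iInter fun g => isClosed_iInter fun _ =>
        isClosed_eq (continuous_apply g) (continuous_apply f)
  have hAc : ∀ H, IsCompact (A H) := fun H =>
    hStc.of_isClosed_subset (hAcl H) (fun p hp => hp.1)
  have hAmono : ∀ H H', H ⊆ H' → A H' ⊆ A H := fun H H' hs p hp =>
    ⟨hp.1, fun x hx => hp.2 x (hs hx)⟩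
  have hAne : ∀ H ∈ 𝒢, (A H).Nonempty := by
    intro H hH𝒢
    obtain ⟨hHcl, hHK, hHm, I, hI1, hIpos, hIl, hIr⟩ := hH H hH𝒢
    let inc : C(H, K) := ⟨fun x => ⟨x, hHK x.2⟩, continuous_subtype_val.subtype_mk _⟩
    refine ⟨fun f => I (f.comp inc), ⟨?_, ?_, ?_, ?_⟩, ?_⟩
    · intro f g
      change I ((f + g).comp inc) = I (f.comp inc) + I (g.comp inc)
      rw [← map_add]; rfl
    · intro c f
      change I ((c • f).comp inc) = c * I (f.comp inc)
      rw [← smul_eq_mul, ← map_smul]; rfl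
    · change I ((1 : C(K, ℝ)).comp inc) = 1
      rw [← hI1]; rfl
    · intro f hf
      exact hIpos _ (fun x => hf _)
    · intro x hx
      refine ⟨fun f g hfg => ?_, fun f g hfg => ?_⟩
      · refine hIl ⟨x, hx⟩ (f.comp inc) (g.comp inc) (fun y z hz => ?_)
        change g (inc y) = f (inc z)
        rw [hfg]
        congr 1
        exact Subtype.ext hz.symm
      · refine hIr ⟨x, hx⟩ (f.comp inc) (g.comp inc) (fun y z hz => ?_)
        change g (inc y) = f (inc z)
        rw [hfg]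
        congr 1
        exact Subtype.ext hz.symm
  haveI : Nonempty 𝒢 := h𝒢.to_subtype
  obtain ⟨p, hp⟩ := IsCompact.nonempty_iInter_of_directed_nonempty_isCompact_isClosed
    (fun H : 𝒢 => A H) (by
      intro H1 H2
      obtain ⟨H3, hH3, h13, h23⟩ := hdir H1 H1.2 H2 H2.2
      exact ⟨⟨H3, hH3⟩, hAmono _ _ h13, hAmono _ _ h23⟩)
    (fun H => hAne H H.2) (fun H => hAc H) (fun H => hAcl H)
  rw [mem_iInter] at hp
  obtain ⟨H0, hH0⟩ := h𝒢
  have hpSt : p ∈ St K := (hp ⟨H0, hH0⟩).1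
  obtain ⟨hadd, hsmul, hone, hpos⟩ := hpSt
  let I : C(K, ℝ) →ₗ[ℝ] ℝ :=
    { toFun := p
      map_add' := hadd
      map_smul' := fun c f => by rw [hsmul]; rfl }
  have hIp : ∀ f, I f = p f := fun _ => rfl
  have hIbd : ∀ f, |I f| ≤ ‖f‖ := fun f => hbd p ⟨hadd, hsmul, hone, hpos⟩ f
  let Ic : C(K, ℝ) →L[ℝ] ℝ := I.mkContinuous 1 (fun f => by
    rw [Real.norm_eq_abs, one_mul]; exact hIbd f)
  have hIc : ∀ f, Ic f = p f := fun _ => rfl
  -- density
  have hdense : closure ((Subtype.val : K → L) ⁻¹' (⋃₀ 𝒢)) = univ := by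
    rw [eq_univ_iff_forall]
    intro x
    rw [closure_subtype]
    refine closure_mono ?_ (hcl x.2)
    intro z hz
    obtain ⟨H, hH1, hH2⟩ := hz
    exact ⟨⟨z, (hH H hH1).2.1 hH2⟩, ⟨H, hH1, hH2⟩, rfl⟩
  have main : ∀ (op : K → K → K), Continuous (fun q : K × K => op q.1 q.2) →
      (∀ x : K, (x : L) ∈ ⋃₀ 𝒢 → ∀ f g : C(K, ℝ), (∀ y, g y = f (op x y)) → p g = p f) →
      ∀ (x : K) (f g : C(K, ℝ)), (∀ y, g y = f (op x y)) → p g = p f := by
    intro op hop hinv x f g hfg
    let M : C(K × K, ℝ) := ⟨fun q => f (op q.1 q.2), f.continuous.comp hop⟩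
    have hclosed : IsClosed {x : K | Ic (M.curry x) = p f} :=
      isClosed_eq (Ic.continuous.comp M.curry.continuous) continuous_const
    have hsub : ((Subtype.val : K → L) ⁻¹' (⋃₀ 𝒢)) ⊆ {x : K | Ic (M.curry x) = p f} := by
      intro z hz
      exact hinv z hz f (M.curry z) (fun y => rfl)
    have h2 := closure_minimal hsub hclosed
    rw [hdense] at h2
    have h3 : Ic (M.curry x) = p f := h2 (mem_univ x)
    rw [hIc] at h3
    rw [← h3]
    congr 1
    ext y
    exact hfg y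
  refine ⟨I, hone, hpos, ?_, ?_⟩
  · intro k f g hfg
    refine main mK hmK ?_ k f g (fun y => hfg y (mK k y) rfl)
    intro x hx
    obtain ⟨H, hH1, hH2⟩ := hx
    exact ((hp ⟨H, hH1⟩).2 x hH2).1
  · intro k f g hfg
    refine main (fun x y => mK y x) (hmK.comp continuous_swap) ?_ k f g (fun y => hfg y (mK y k) rfl)
    intro x hx
    obtain ⟨H, hH1, hH2⟩ := hx
    exact ((hp ⟨H, hH1⟩).2 x hH2).2

end Pool.Agent.H100R2.MH
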