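import Mathlib
import Pool.Agent.H100R2.MH.Stubs

set_option autoImplicit false

/-! T26 (helper844): a closed associative subloop has an invariant integral. -/

namespace Pool.Agent.H100R2.MH

open Topology Filter Set MeasureTheory
open Pool.Agent.Helper974.Moufang (kk FF IsMoufang FF_cont kk_kk kk_kei)

universe u

/-- a two sided invariant state on a compact group -/
theorem t26_haar {K : Type u} [Group K] [TopologicalSpace K] [IsTopologicalGroup K]
    [CompactSpace K] [T2Space K] :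
    ∃ J0 : C(K, ℝ) →ₗ[ℝ] ℝ, J0 1 = 1 ∧ (∀ f : C(K, ℝ), (∀ x, 0 ≤ f x) → 0 ≤ J0 f) ∧
      (∀ x : K, ∀ f g : C(K, ℝ), (∀ y, g y = f (x * y)) → J0 g = J0 f) ∧
      (∀ x : K, ∀ f g : C(K, ℝ), (∀ y, g y = f (y * x)) → J0 g = J0 f) := by
  letI : MeasurableSpace (K × K) := borel (K × K)
  haveI : BorelSpace (K × K) := ⟨rfl⟩
  let γ : Measure (K × K) := Measure.haarMeasure ⊤
  haveI hγ : IsProbabilityMeasure γ := by
    refine ⟨?_⟩
    have := Measure.haarMeasure_self (G := K × K) (K₀ := ⊤)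
    simpa using this
  have hc : ∀ f : C(K, ℝ), Continuous (fun g : K × K => f (g.1 * g.2⁻¹)) := fun f =>
    f.continuous.comp (continuous_fst.mul continuous_snd.inv)
  have hi : ∀ f : C(K, ℝ), Integrable (fun g : K × K => f (g.1 * g.2⁻¹)) γ := fun f =>
    (hc f).integrable_of_hasCompactSupport (HasCompactSupport.of_compactSpace _)
  refine ⟨{ toFun := fun f => ∫ g, f (g.1 * g.2⁻¹) ∂γ
            map_add' := fun f1 f2 => integral_add (hi f1) (hi f2)
            map_smul' := fun c f1 => integral_const_mul c _ }, ?_, ?_, ?_, ?_⟩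
  · change ∫ g : K × K, (1 : ℝ) ∂γ = 1
    simp
  · intro f hf
    exact integral_nonneg (fun g => hf _)
  · intro x f g hfg
    change ∫ p : K × K, g (p.1 * p.2⁻¹) ∂γ = ∫ p : K × K, f (p.1 * p.2⁻¹) ∂γ
    have h1 : ∀ p : K × K, g (p.1 * p.2⁻¹) = (fun p : K × K => f (p.1 * p.2⁻¹)) ((x, 1) * p) := by
      intro p
      rw [hfg]
      change _ = f ((x * p.1) * (1 * p.2)⁻¹)
      congr 1
      group
    rw [integral_congr_ae (Filter.Eventually.of_forall h1)]
    exact integral_mul_left_eq_self (fun p : K × K => f (p.1 * p.2⁻¹)) (x, 1)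
  · intro x f g hfg
    change ∫ p : K × K, g (p.1 * p.2⁻¹) ∂γ = ∫ p : K × K, f (p.1 * p.2⁻¹) ∂γ
    have h1 : ∀ p : K × K, g (p.1 * p.2⁻¹) = (fun p : K × K => f (p.1 * p.2⁻¹)) ((1, x⁻¹) * p) := by
      intro p
      rw [hfg]
      change _ = f ((1 * p.1) * (x⁻¹ * p.2)⁻¹)
      congr 1
      group
    rw [integral_congr_ae (Filter.Eventually.of_forall h1)]
    exact integral_mul_left_eq_self (fun p : K × K => f (p.1 * p.2⁻¹)) (1, x⁻¹)

theorem t26 : T26.{u} := by
  intro L _ _ _ mul ldiv rdiv e h hm hl H hH hass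
  haveI : CompactSpace H := isCompact_iff_compactSpace.mp hH.closed.isCompact
  letI : Mul H := ⟨fun x y => ⟨mul x y, hH.mul_mem _ x.2 _ y.2⟩⟩
  letI : One H := ⟨⟨e, hH.one_mem⟩⟩
  letI : Inv H := ⟨fun x => ⟨ldiv x e, hH.inv_mem _ x.2⟩⟩
  letI : Group H := Group.ofLeftAxioms
    (fun x y z => Subtype.ext (hass x x.2 y y.2 z z.2))
    (fun x => Subtype.ext (h.one_mul x)) (fun x => Subtype.ext (h.inv_mul x))
  haveI : IsTopologicalGroup H :=
    { continuous_mul := by
        refine Continuous.subtype_mk (f := fun p : H × H => mul (p.1 : L) (p.2 : L)) ?_ _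
        exact hm.comp ((continuous_subtype_val.comp continuous_fst).prodMk
          (continuous_subtype_val.comp continuous_snd))
      continuous_inv := by
        refine Continuous.subtype_mk (f := fun p : H => ldiv (p : L) e) ?_ _
        exact hl.comp (continuous_subtype_val.prodMk continuous_const) }
  obtain ⟨J, hJ1, hJ0, hJl, hJr⟩ := t26_haar (K := H)
  exact ⟨J, hJ1, hJ0, fun k f g hfg => hJl k f g (fun y => hfg y (k * y) rfl),
    fun k f g hfg => hJr k f g (fun y => hfg y (y * k) rfl)⟩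

end Pool.Agent.H100R2.MH
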