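import Mathlib
import Pool.Agent.H100R2.MH.Stubs
import Pool.Agent.Helper974.Moufang.Ext

set_option autoImplicit false

namespace Pool.Agent.H100R2.MH

open Topology Filter Set
open Pool.Agent.Helper974.Moufang (HaarComp extension)

universe u

theorem t27 : T27.{u} := by
  intro L _ _ _ mul ldiv rdiv e h hmul hldiv
  rintro ⟨I0, i1, i2, i3, i4⟩
  let M : C(L, ℝ) →ₗ[ℝ] ℝ :=
    { toFun := fun f => I0 (f.restrict (connectedComponent e))
      map_add' := fun f g => by rw [← map_add]; rfl
      map_smul' := fun c f => by rw [RingHom.id_apply, ← map_smul]; rfl }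
  have hM : HaarComp mul e M := by
    refine ⟨⟨?_, ?_⟩, ?_, ?_, ?_⟩
    · change I0 ((1 : C(L, ℝ)).restrict (connectedComponent e)) = 1
      have : (1 : C(L, ℝ)).restrict (connectedComponent e) = 1 := rfl
      rw [this, i1]
    · intro f hf
      exact i2 _ (fun x => hf _)
    · intro f hf
      change I0 (f.restrict (connectedComponent e)) = 0
      have : f.restrict (connectedComponent e) = 0 := by
        ext x
        exact hf x x.2
      rw [this, map_zero]
    · intro k hk f g hfg
      refine i3 ⟨k, hk⟩ _ _ (fun y z hz => ?_)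
      change g y = f z
      rw [hfg y y.2, hz]
    · intro k hk f g hfg
      refine i4 ⟨k, hk⟩ _ _ (fun y z hz => ?_)
      change g y = f z
      rw [hfg y y.2, hz]
  obtain ⟨I, hI, hI3, hI4⟩ := extension h hmul hldiv M hM
  exact ⟨I, hI.1, hI.2, hI3, hI4⟩

end Pool.Agent.H100R2.MH
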