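import Pool.Agent.H100R2.MH.Stubs2

set_option autoImplicit false

namespace Pool.Agent.H100R2.MH

open Topology Filter Set
open Pool.Agent.Helper974.Moufang (kk FF IsMoufang FF_cont kk_kk kk_kei)

universe u

namespace T37x

variable {L : Type u} [TopologicalSpace L]

/-- restriction of functions to a smaller set -/
noncomputable def res {E H : Set L} (h : E ⊆ H) (f : C(H, ℝ)) : C(E, ℝ) :=
  f.comp (ContinuousMap.inclusion h)

theorem res_apply {E H : Set L} (h : E ⊆ H) (f : C(H, ℝ)) (x : E) :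
    res h f x = f ⟨x, h x.2⟩ := rfl

/-- the functional on `C(H)` given by a functional on `C(E)` -/
noncomputable def nu {E H : Set L} (h : E ⊆ H) (I : C(E, ℝ) →ₗ[ℝ] ℝ) : C(H, ℝ) →ₗ[ℝ] ℝ where
  toFun f := I (res h f)
  map_add' f g := by
    have : res h (f + g) = res h f + res h g := by ext x; rfl
    rw [this, map_add]
  map_smul' c f := by
    have : res h (c • f) = c • res h f := by ext x; rfl
    rw [this, map_smul]
    rfl

theorem nu_apply {E H : Set L} (h : E ⊆ H) (I : C(E, ℝ) →ₗ[ℝ] ℝ) (f : C(H, ℝ)) :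
    nu h I f = I (res h f) := rfl

theorem nu_pos {E H : Set L} (h : E ⊆ H) (I : C(E, ℝ) →ₗ[ℝ] ℝ)
    (hI : ∀ f : C(E, ℝ), (∀ x, 0 ≤ f x) → 0 ≤ I f) (f : C(H, ℝ)) (hf : ∀ x, 0 ≤ f x) :
    0 ≤ nu h I f := by
  rw [nu_apply]
  exact hI _ fun x => hf _

theorem nu_one {E H : Set L} (h : E ⊆ H) (I : C(E, ℝ) →ₗ[ℝ] ℝ) (h1 : I 1 = 1) :
    nu h I 1 = 1 := by
  rw [nu_apply]
  have : res h (1 : C(H, ℝ)) = 1 := by ext x; rfl
  rw [this, h1]

theorem nu_bound {E H : Set L} [CompactSpace H] (h : E ⊆ H) (I : C(E, ℝ) →ₗ[ℝ] ℝ)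
    (h1 : I 1 = 1) (hI : ∀ f : C(E, ℝ), (∀ x, 0 ≤ f x) → 0 ≤ I f) (f : C(H, ℝ)) :
    |nu h I f| ≤ ‖f‖ := by
  have ha : ∀ x, |f x| ≤ ‖f‖ := fun x => f.norm_coe_le_norm x
  have hb : 0 ≤ nu h I (‖f‖ • (1 : C(H, ℝ)) - f) := by
    refine nu_pos h I hI _ fun x => ?_
    have := (abs_le.1 (ha x)).2
    simp only [ContinuousMap.sub_apply, ContinuousMap.smul_apply, ContinuousMap.one_apply,
      smul_eq_mul, mul_one]
    linarith
  have hc : 0 ≤ nu h I (‖f‖ • (1 : C(H, ℝ)) + f) := by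
    refine nu_pos h I hI _ fun x => ?_
    have := (abs_le.1 (ha x)).1
    simp only [ContinuousMap.add_apply, ContinuousMap.smul_apply, ContinuousMap.one_apply,
      smul_eq_mul, mul_one]
    linarith
  rw [map_sub, map_smul, nu_one h I h1, smul_eq_mul, mul_one] at hb
  rw [map_add, map_smul, nu_one h I h1, smul_eq_mul, mul_one] at hc
  exact abs_le.2 ⟨by linarith, by linarith⟩

end T37x

open T37x in
theorem t37 : T37.{u} := by
  intro L _ _ _ mul ldiv e _ H hH E hE hgen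
  have : CompactSpace H := isCompact_iff_compactSpace.1 hH.closed.isCompact
  choose I hI1 hIpos hIl hIr using fun j => (hE j).2.2.2
  have hs : ∀ f : C(H, ℝ), Summable fun j => (1 / 2 : ℝ) ^ (j + 1) * nu (hE j).2.1 (I j) f := by
    intro f
    have h0 : Summable fun j : ℕ => (1 / 2 : ℝ) ^ (j + 1) * ‖f‖ := by
      have := (summable_geometric_two.mul_left (1 / 2 : ℝ)).mul_right ‖f‖
      refine this.congr fun j => ?_
      rw [pow_succ]
      ring
    refine Summable.of_norm_bounded h0 fun j => ?_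
    rw [norm_mul, Real.norm_of_nonneg (by positivity), Real.norm_eq_abs]
    exact mul_le_mul_of_nonneg_left (nu_bound _ _ (hI1 j) (hIpos j) f) (by positivity)
  let ν : C(H, ℝ) →ₗ[ℝ] ℝ :=
    { toFun := fun f => ∑' j, (1 / 2 : ℝ) ^ (j + 1) * nu (hE j).2.1 (I j) f
      map_add' := fun f g => by
        rw [← (hs f).tsum_add (hs g)]
        refine tsum_congr fun j => ?_
        rw [map_add]
        ring
      map_smul' := fun c f => by
        simp only [RingHom.id_apply, smul_eq_mul]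
        rw [← tsum_mul_left]
        refine tsum_congr fun j => ?_
        rw [map_smul, smul_eq_mul]
        ring }
  have hν : ∀ f, ν f = ∑' j, (1 / 2 : ℝ) ^ (j + 1) * nu (hE j).2.1 (I j) f := fun f => rfl
  have hterm : ∀ (f : C(H, ℝ)), (∀ x, 0 ≤ f x) → ∀ j,
      0 ≤ (1 / 2 : ℝ) ^ (j + 1) * nu (hE j).2.1 (I j) f := by
    intro f hf j
    exact mul_nonneg (by positivity) (nu_pos _ _ (hIpos j) f hf)
  refine ⟨ν, ?_, ?_, ?_⟩
  · rw [hν]
    have h1 : ∀ j : ℕ, (1 / 2 : ℝ) ^ (j + 1) * nu (hE j).2.1 (I j) 1 =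
        (1 / 2 : ℝ) * (1 / 2 : ℝ) ^ j := by
      intro j
      rw [nu_one _ _ (hI1 j), pow_succ]
      ring
    rw [tsum_congr h1, tsum_mul_left, tsum_geometric_two]
    norm_num
  · intro f hf
    rw [hν]
    exact tsum_nonneg (hterm f hf)
  · intro A heA hmul hA
    refine hgen A heA ?_ hmul
    intro j x hx
    refine hA ⟨x, (hE j).2.1 hx⟩ ⟨((1 / 2 : ℝ) ^ (j + 1)) • nu (hE j).2.1 (I j), ?_, ?_, ?_, ?_⟩
    · rw [LinearMap.smul_apply, nu_one _ _ (hI1 j), smul_eq_mul, mul_one]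
      positivity
    · intro f hf
      rw [LinearMap.smul_apply, smul_eq_mul]
      exact hterm f hf j
    · intro f hf
      rw [LinearMap.smul_apply, smul_eq_mul, hν]
      exact (hs f).le_tsum j fun i _ => hterm f hf i
    · intro f g hf hfg
      have hg : ∀ y, 0 ≤ g y := by
        intro y
        rw [hfg y ⟨mul x y, hH.mul_mem x ((hE j).2.1 hx) y y.2⟩ rfl]
        exact hf _
      have h2 : nu (hE j).2.1 (I j) g = nu (hE j).2.1 (I j) f := by
        rw [nu_apply, nu_apply]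
        refine hIl j ⟨x, hx⟩ _ _ ?_
        intro y z hz
        rw [res_apply, res_apply]
        exact hfg _ _ hz
      rw [LinearMap.smul_apply, smul_eq_mul, hν, ← h2]
      exact (hs g).le_tsum j fun i _ => hterm g hg i

end Pool.Agent.H100R2.MH
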